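import Mathlib

/-!
# Semantic refutations with branching programs which sweep over the variables and choose a linear
inequality

* A clause over the variables `V` is a finite set of pairs `(v, b)` (the variable `v` has the
  value `b`), a CNF is a finite set of clauses.
* A program with the state set `Fin S` is a list of instructions `(v, δ)`: read the variable `v` and
  replace the state `s` by `δ s (x v)`. So it is an oblivious branching program of width `S`.
* An order of the variables is an injective map `π : V → ℕ`, `π v` is the position of `v`.
* `Sweep π w h P`: the program `P` is a sweep along the order `π` with a window of length `w`, up to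
  `h` free variables: outside of a set `D` of at most `h` variables, no variable is read after a
  variable whose position is larger by more than `w`. (In the window the program may read the
  variables in any order, and several times; the variables of `D` may be read at any time. For
  `w = 0` and `D = ∅` the variables are read in the order `π`, as by an ordered binary decision
  diagram.)
* `Line Ords w h p f`: there is an oblivious branching program of width `2 ^ h` which consists of at
  most `p` sweeps, each of them along a member of `Ords`, and a linear inequality with real
  coefficients for each state, such that `f x` is true if and only if `x` satisfies the inequality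
  of the last state of the program at `x`. (If each inequality is always true or always false, this
  is a Boolean function computed by the program; for `h = 0` or `p = 0` it is a linear inequality.)
* `Deriv F P k Γ`: the list `Γ` of Boolean functions (the last one first) is a semantic derivation
  from the CNF `F`: every line satisfies `P`, and it is implied by a clause of `F` or by at most `k`
  earlier lines.
-/

set_option autoImplicit false

namespace Pool.Agent.J4H72.OB

/-- The assignment `x` satisfies the clause `C`. -/
def SatC {V : Type} (C : Finset (V × Bool)) (x : V → Bool) : Prop := ∃ l ∈ C, x l.1 = l.2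

/-- The CNF `F` is unsatisfiable. -/
def Unsat {V : Type} (F : Finset (Finset (V × Bool))) : Prop :=
  ∀ x : V → Bool, ∃ C ∈ F, ¬ SatC C x

/-- Lists of instructions `(v, δ)`: read the variable `v` and replace the state `s` by
`δ s (x v)`. -/
abbrev Program (V : Type) (S : ℕ) : Type := List (V × (Fin S → Bool → Fin S))

/-- The last state of the program `P` at the input `x` if it begins in the state `s`. -/
def run {V : Type} {S : ℕ} (P : Program V S) (x : V → Bool) (s : Fin S) : Fin S :=
  P.foldl (fun s c => c.2 s (x c.1)) s

/-- Outside of a set `D` of at most `h` variables, `P` reads no variable after a variable whose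
position in `π` is larger by more than `w`. -/
def Sweep {V : Type} {S : ℕ} (π : V → ℕ) (w h : ℕ) (P : Program V S) : Prop :=
  ∃ D : Finset V, D.card ≤ h ∧
    P.Pairwise (fun a b => a.1 ∉ D → b.1 ∉ D → π a.1 ≤ π b.1 + w)

/-- The function `f` is true at `x` if and only if `x` satisfies the linear inequality
`t s' ≤ ∑ v, a s' v * x v`, where `s'` is the last state at `x` of a program with `2 ^ h` states which
consists of at most `p` sweeps along members of `Ords`. -/
def Line {V : Type} [Fintype V] (Ords : Finset (V → ℕ)) (w h p : ℕ) (f : (V → Bool) → Bool) :
    Prop :=
  ∃ (Ps : List (Program V (2 ^ h))) (s : Fin (2 ^ h)) (a : Fin (2 ^ h) → V → ℝ)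
    (t : Fin (2 ^ h) → ℝ), Ps.length ≤ p ∧ (∀ P ∈ Ps, ∃ π ∈ Ords, Sweep π w h P) ∧
      ∀ x, f x = true ↔
        t (run Ps.flatten x s) ≤ ∑ v, if x v = true then a (run Ps.flatten x s) v else 0

/-- Semantic derivations from the CNF `F` (the last line first): every line has the property `P`
and is implied by a clause of `F` or by at most `k` earlier lines. -/
inductive Deriv {V : Type} (F : Finset (Finset (V × Bool))) (P : ((V → Bool) → Bool) → Prop)
    (k : ℕ) : List ((V → Bool) → Bool) → Prop
  | nil : Deriv F P k []
  | cons {f : (V → Bool) → Bool} {Γ : List ((V → Bool) → Bool)} : Deriv F P k Γ → P f →
      ((∃ C ∈ F, ∀ x, SatC C x → f x = true) ∨ ∃ S : List ((V → Bool) → Bool), S.length ≤ k ∧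
        (∀ g ∈ S, g ∈ Γ) ∧ ∀ x, (∀ g ∈ S, g x = true) → f x = true) → Deriv F P k (f :: Γ)

end Pool.Agent.J4H72.OB
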