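import Pool.Agent.J4H72.OB.Defs

/-!
# The formulas

A clique-colouring formula in unary threshold encoding, whose variables are chosen from a pool of
variables by pointers.
-/

set_option autoImplicit false

namespace Pool.Agent.J4H72.OB

/-- The clause `c` (at most 8 literals over the variables `U`), if the pointers have the values
`J`. The variable of `V` with the name `e (inl p)` is the member `p` of the pool, `e (inr (u, b))`
is the bit `b` of the pointer of `u`. -/
def lift {U V : Type} [DecidableEq V] {t : ℕ} (e : (Fin t → Bool) ⊕ (U × Fin t) → V)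
    (c : Fin 8 → U × Bool) (J : Fin 8 → Fin t → Bool) : Finset (V × Bool) :=
  (Finset.univ : Finset (Fin 8 × Fin t)).image
    (fun p => (e (Sum.inr ((c p.1).1, p.2)), !(J p.1 p.2))) ∪
  (Finset.univ : Finset (Fin 8)).image (fun a => (e (Sum.inl (J a)), (c a).2))

theorem lift_card {U V : Type} [DecidableEq V] {t : ℕ} (e : (Fin t → Bool) ⊕ (U × Fin t) → V)
    (c : Fin 8 → U × Bool) (J : Fin 8 → Fin t → Bool) : (lift e c J).card ≤ 8 * (t + 1) := by
  unfold lift
  refine (Finset.card_union_le _ _).trans ?_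
  refine (Nat.add_le_add Finset.card_image_le Finset.card_image_le).trans ?_
  simp only [Finset.card_univ, Fintype.card_prod, Fintype.card_fin]
  omega

theorem not_satC_lift {U V : Type} [DecidableEq V] {t : ℕ}
    (e : (Fin t → Bool) ⊕ (U × Fin t) → V)
    (c : Fin 8 → U × Bool) (J : Fin 8 → Fin t → Bool) (x : V → Bool) :
    ¬ SatC (lift e c J) x ↔ (∀ a b, x (e (Sum.inr ((c a).1, b))) = J a b) ∧
      ∀ a, x (e (Sum.inl (J a))) = !(c a).2 := by
  unfold SatC lift
  constructor
  · intro h
    constructor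
    · intro a b
      by_contra hne
      apply h
      refine ⟨(e (Sum.inr ((c a).1, b)), !(J a b)), ?_, ?_⟩
      · apply Finset.mem_union_left
        exact Finset.mem_image.mpr ⟨(a, b), Finset.mem_univ _, rfl⟩
      · show x (e (Sum.inr ((c a).1, b))) = !(J a b)
        revert hne
        cases x (e (Sum.inr ((c a).1, b))) <;> cases J a b <;> simp
    · intro a
      by_contra hne
      apply h
      refine ⟨(e (Sum.inl (J a)), (c a).2), ?_, ?_⟩
      · apply Finset.mem_union_right
        exact Finset.mem_image.mpr ⟨a, Finset.mem_univ _, rfl⟩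
      · show x (e (Sum.inl (J a))) = (c a).2
        revert hne
        cases x (e (Sum.inl (J a))) <;> cases (c a).2 <;> simp
  · rintro ⟨h1, h2⟩ ⟨l, hl, hx⟩
    rcases Finset.mem_union.mp hl with hl | hl
    · obtain ⟨p, _, rfl⟩ := Finset.mem_image.mp hl
      have := h1 p.1 p.2
      simp only [this] at hx
      cases J p.1 p.2 <;> simp at hx
    · obtain ⟨a, _, rfl⟩ := Finset.mem_image.mp hl
      have := h2 a
      simp only [this] at hx
      cases (c a).2 <;> simp at hx

/-- The vertices: `κ + 1` parts with `q` vertices. -/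
abbrev WV (κ q : ℕ) : Type := Fin (κ + 1) × Fin q

/-- The variables `t i j` (the vertex chosen in the part `i` has an index `≥ j`) and `u w c` (the
colour of `w` is `≥ c`). -/
abbrev UV (κ q : ℕ) : Type := (Fin (κ + 1) × Fin (q + 1)) ⊕ (WV κ q × Fin (κ + 1))

/-- Indices of the clauses. -/
abbrev Ix (κ q : ℕ) : Type := (Fin (κ + 1) × Bool) ⊕ (WV κ q × Bool) ⊕ (WV κ q × WV κ q × Fin κ)

/-- The clauses. -/
def bc {κ q : ℕ} : Ix κ q → Fin 8 → UV κ q × Bool
  | Sum.inl (i, b) => fun _ => (Sum.inl (i, bif b then 0 else Fin.last q), b)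
  | Sum.inr (Sum.inl (w, b)) => fun _ => (Sum.inr (w, bif b then 0 else Fin.last κ), b)
  | Sum.inr (Sum.inr (w, w', c)) => if w = w' then fun _ => (Sum.inl (0, 0), true) else
      ![(Sum.inl (w.1, w.2.castSucc), false), (Sum.inl (w.1, w.2.succ), true),
        (Sum.inl (w'.1, w'.2.castSucc), false), (Sum.inl (w'.1, w'.2.succ), true),
        (Sum.inr (w, c.castSucc), false), (Sum.inr (w, c.succ), true),
        (Sum.inr (w', c.castSucc), false), (Sum.inr (w', c.succ), true)]

/-- A sequence of bits which begins with true and ends with false has a descent. -/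
theorem exists_descent : ∀ (m : ℕ) (f : Fin (m + 1) → Bool), f 0 = true → f (Fin.last m) = false →
    ∃ j : Fin m, f j.castSucc = true ∧ f j.succ = false := by
  intro m f h0 hm
  by_contra hcon
  push Not at hcon
  have : ∀ j : ℕ, ∀ hj : j < m + 1, f ⟨j, hj⟩ = true := by
    intro j
    induction j with
    | zero => intro hj; exact h0
    | succ j ih =>
      intro hj
      have := hcon ⟨j, by omega⟩ (ih (by omega))
      simpa using this
  have h1 := this m (by omega)
  have h2 : (⟨m, by omega⟩ : Fin (m + 1)) = Fin.last m := rfl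
  rw [h2, hm] at h1
  exact absurd h1 (by simp)

/-- The clauses are contradictory. -/
theorem bc_unsat {κ q : ℕ} (α : UV κ q → Bool) : ∃ ix : Ix κ q, ∀ a, α (bc ix a).1 = !(bc ix a).2 := by
  by_contra hcon
  push Not at hcon
  have ht : ∀ i, ∃ j : Fin q, α (Sum.inl (i, j.castSucc)) = true ∧
      α (Sum.inl (i, j.succ)) = false := by
    intro i
    apply exists_descent q (fun j => α (Sum.inl (i, j)))
    · obtain ⟨a, ha⟩ := hcon (Sum.inl (i, true))
      simpa [bc] using ha
    · obtain ⟨a, ha⟩ := hcon (Sum.inl (i, false))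
      simpa [bc] using ha
  have hu : ∀ w, ∃ c : Fin κ, α (Sum.inr (w, c.castSucc)) = true ∧
      α (Sum.inr (w, c.succ)) = false := by
    intro w
    apply exists_descent κ (fun j => α (Sum.inr (w, j)))
    · obtain ⟨a, ha⟩ := hcon (Sum.inr (Sum.inl (w, true)))
      simpa [bc] using ha
    · obtain ⟨a, ha⟩ := hcon (Sum.inr (Sum.inl (w, false)))
      simpa [bc] using ha
  choose π hπ using ht
  choose col hcol using hu
  obtain ⟨i, i', hne, hc⟩ : ∃ i i' : Fin (κ + 1), i ≠ i' ∧ col (i, π i) = col (i', π i') := by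
    obtain ⟨i, i', hne, h⟩ := Fintype.exists_ne_map_eq_of_card_lt
      (fun i : Fin (κ + 1) => col (i, π i)) (by simp)
    exact ⟨i, i', hne, h⟩
  obtain ⟨a, ha⟩ := hcon (Sum.inr (Sum.inr ((i, π i), (i', π i'), col (i, π i))))
  have hw : ((i, π i) : WV κ q) ≠ (i', π i') := fun h => hne (congrArg Prod.fst h)
  apply ha
  rw [bc, if_neg hw]
  fin_cases a
  · simpa using (hπ i).1
  · simpa using (hπ i).2
  · simpa using (hπ i').1
  · simpa using (hπ i').2
  · simpa using (hcol (i, π i)).1
  · simpa using (hcol (i, π i)).2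
  · simpa [hc] using (hcol (i', π i')).1
  · simpa [hc] using (hcol (i', π i')).2

/-- The formula. -/
def Fm {κ q t : ℕ} {V : Type} [DecidableEq V] (e : (Fin t → Bool) ⊕ (UV κ q × Fin t) → V) :
    Finset (Finset (V × Bool)) :=
  (Finset.univ : Finset (Ix κ q × (Fin 8 → Fin t → Bool))).image (fun p => lift e (bc p.1) p.2)

theorem Fm_unsat {κ q t : ℕ} {V : Type} [DecidableEq V]
    (e : (Fin t → Bool) ⊕ (UV κ q × Fin t) → V) : Unsat (Fm e) := by
  intro x
  obtain ⟨ix, hix⟩ := bc_unsat (fun u : UV κ q => x (e (Sum.inl (fun b => x (e (Sum.inr (u, b)))))))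
  refine ⟨lift e (bc ix) (fun a b => x (e (Sum.inr ((bc ix a).1, b)))), ?_, ?_⟩
  · exact Finset.mem_image.mpr ⟨(ix, _), Finset.mem_univ _, rfl⟩
  · rw [not_satC_lift]
    exact ⟨fun a b => rfl, fun a => hix a⟩

theorem Fm_card {κ q t : ℕ} {V : Type} [DecidableEq V]
    (e : (Fin t → Bool) ⊕ (UV κ q × Fin t) → V) :
    (Fm e).card ≤ ((κ + 1) * 2 + ((κ + 1) * q * 2 + (κ + 1) * q * ((κ + 1) * q * κ))) *
      (2 ^ t) ^ 8 := by
  unfold Fm
  refine Finset.card_image_le.trans ?_
  simp only [Finset.card_univ, Fintype.card_prod, Fintype.card_sum, Fintype.card_fin,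
    Fintype.card_bool, Fintype.card_fun]
  exact le_rfl

theorem Fm_width {κ q t : ℕ} {V : Type} [DecidableEq V]
    (e : (Fin t → Bool) ⊕ (UV κ q × Fin t) → V) : ∀ C ∈ Fm e, C.card ≤ 8 * (t + 1) := by
  intro C hC
  obtain ⟨p, _, rfl⟩ := Finset.mem_image.mp hC
  exact lift_card e _ _

end Pool.Agent.J4H72.OB
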