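import Pool.Agent.J4H72.OB.Defs

/-!
# Two large sets of variables which are separated in several orders
-/

set_option autoImplicit false

namespace Pool.Agent.J4H72.OB

variable {V : Type}

/-- In one order, halving the two sets once. -/
theorem halve_one (ρ : V → ℕ) (hρ : Function.Injective ρ) (w m : ℕ) (A B : Finset V)
    (hA : 2 * m + w ≤ A.card) (hB : 2 * m + w ≤ B.card) :
    ∃ A' ⊆ A, ∃ B' ⊆ B, m ≤ A'.card ∧ m ≤ B'.card ∧
      ((∀ a ∈ A', ∀ b ∈ B', ρ a + w < ρ b) ∨ (∀ a ∈ A', ∀ b ∈ B', ρ b + w < ρ a)) := by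
  classical
  have hstep : ∀ (S : Finset V) (τ d : ℕ), (S.filter (fun v => ρ v < τ + d)).card ≤
      (S.filter (fun v => ρ v < τ)).card + d := by
    intro S τ d
    induction d with
    | zero => simp
    | succ d ih =>
      have h1 : S.filter (fun v => ρ v < τ + (d + 1)) ⊆
          S.filter (fun v => ρ v < τ + d) ∪ S.filter (fun v => ρ v = τ + d) := by
        intro v hv
        rw [Finset.mem_filter] at hv
        rw [Finset.mem_union, Finset.mem_filter, Finset.mem_filter]
        rcases Nat.lt_or_ge (ρ v) (τ + d) with h | h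
        · exact Or.inl ⟨hv.1, h⟩
        · exact Or.inr ⟨hv.1, by omega⟩
      have h2 : (S.filter (fun v => ρ v = τ + d)).card ≤ 1 := by
        rw [Finset.card_le_one]
        intro a ha b hb
        rw [Finset.mem_filter] at ha hb
        exact hρ (ha.2.trans hb.2.symm)
      exact (Finset.card_le_card h1).trans ((Finset.card_union_le _ _).trans (by omega))
  have hcompl : ∀ (S : Finset V) (τ : ℕ), (S.filter (fun v => ρ v < τ)).card +
      (S.filter (fun v => τ ≤ ρ v)).card = S.card := by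
    intro S τ
    have := Finset.card_filter_add_card_filter_not (s := S) (fun v => ρ v < τ)
    simpa [not_lt] using this
  have hex : ∃ τ, m ≤ (A.filter (fun v => ρ v < τ)).card ∨
      m ≤ (B.filter (fun v => ρ v < τ)).card := by
    refine ⟨A.sup (fun v => ρ v + 1), Or.inl ?_⟩
    rw [Finset.filter_true_of_mem]
    · omega
    · intro v hv
      have := Finset.le_sup (f := fun v => ρ v + 1) hv
      omega
  obtain ⟨τ, hτ, hmin⟩ : ∃ τ, (m ≤ (A.filter (fun v => ρ v < τ)).card ∨
      m ≤ (B.filter (fun v => ρ v < τ)).card) ∧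
      ((A.filter (fun v => ρ v < τ)).card ≤ m ∧ (B.filter (fun v => ρ v < τ)).card ≤ m) := by
    refine ⟨Nat.find hex, Nat.find_spec hex, ?_⟩
    rcases Nat.eq_zero_or_pos (Nat.find hex) with h0 | h0
    · rw [h0]; simp
    · obtain ⟨τ', hτ'⟩ : ∃ τ', Nat.find hex = τ' + 1 := ⟨Nat.find hex - 1, by omega⟩
      have hlt := Nat.find_min hex (m := τ') (by omega)
      push Not at hlt
      rw [hτ']
      exact ⟨(hstep A τ' 1).trans (by omega), (hstep B τ' 1).trans (by omega)⟩
  rcases hτ with hτ | hτ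
  · refine ⟨A.filter (fun v => ρ v < τ), Finset.filter_subset _ _,
      B.filter (fun v => τ + w ≤ ρ v), Finset.filter_subset _ _, hτ, ?_, Or.inl ?_⟩
    · have h1 := hcompl B (τ + w)
      have h2 := hstep B τ w
      omega
    · intro a ha b hb
      rw [Finset.mem_filter] at ha hb
      omega
  · refine ⟨A.filter (fun v => τ + w ≤ ρ v), Finset.filter_subset _ _,
      B.filter (fun v => ρ v < τ), Finset.filter_subset _ _, ?_, hτ, Or.inr ?_⟩
    · have h1 := hcompl A (τ + w)
      have h2 := hstep A τ w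
      omega
    · intro a ha b hb
      rw [Finset.mem_filter] at ha hb
      omega

/-- Several orders. -/
theorem halve_all [DecidableEq V] (Ords : Finset (V → ℕ)) (w M : ℕ) :
    (∀ π ∈ Ords, Function.Injective π) → ∀ A B : Finset V,
    (M + w) * 2 ^ Ords.card ≤ A.card + w → (M + w) * 2 ^ Ords.card ≤ B.card + w →
    ∃ A' ⊆ A, ∃ B' ⊆ B, M ≤ A'.card ∧ M ≤ B'.card ∧ ∀ ρ ∈ Ords,
      ((∀ a ∈ A', ∀ b ∈ B', ρ a + w < ρ b) ∨ (∀ a ∈ A', ∀ b ∈ B', ρ b + w < ρ a)) := by
  classical
  induction Ords using Finset.induction_on with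
  | empty =>
    intro _ A B hA hB
    exact ⟨A, subset_rfl, B, subset_rfl, by simpa using hA, by simpa using hB, by simp⟩
  | @insert π S hπ ih =>
    intro hinj A B hA hB
    rw [Finset.card_insert_of_notMem hπ, pow_succ, ← mul_assoc] at hA hB
    have hge : M + w ≤ (M + w) * 2 ^ S.card := Nat.le_mul_of_pos_right _ (by positivity)
    obtain ⟨A1, hA1, B1, hB1, hcA, hcB, hsep⟩ := halve_one π (hinj π (Finset.mem_insert_self _ _))
      w ((M + w) * 2 ^ S.card - w) A B (by omega) (by omega)
    obtain ⟨A2, hA2, B2, hB2, hc2A, hc2B, hsep2⟩ :=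
      ih (fun ρ hρ => hinj ρ (Finset.mem_insert_of_mem hρ)) A1 B1 (by omega) (by omega)
    refine ⟨A2, hA2.trans hA1, B2, hB2.trans hB1, hc2A, hc2B, ?_⟩
    intro ρ hρ
    rcases Finset.mem_insert.mp hρ with rfl | hρ
    · rcases hsep with h | h
      · exact Or.inl (fun a ha b hb => h a (hA2 ha) b (hB2 hb))
      · exact Or.inr (fun a ha b hb => h a (hA2 ha) b (hB2 hb))
    · exact hsep2 ρ hρ

end Pool.Agent.J4H72.OB
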