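import Pool.Agent.J4H72.OB.Prot

/-!
# Monotone interpolation for semantic refutations whose lines have short protocols
-/

set_option autoImplicit false

namespace Pool.Agent.J4H72.OB

open Pool.Agent.H520R2

variable {X Y β γ G : Type}

namespace Prot

/-- Relabel the leaves. -/
def map : Prot X Y β → (β → γ) → Prot X Y γ
  | leaf v, k => leaf (k v)
  | alice p l r, k => alice p (l.map k) (r.map k)
  | bob p l r, k => bob p (l.map k) (r.map k)

theorem eval_map (P : Prot X Y β) (k : β → γ) (x : X) (y : Y) :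
    (P.map k).eval x y = k (P.eval x y) := by
  induction P with
  | leaf v => rfl
  | alice p l r ihl ihr =>
    simp only [map, eval]
    split_ifs
    · exact ihl
    · exact ihr
  | bob p l r ihl ihr =>
    simp only [map, eval]
    split_ifs
    · exact ihl
    · exact ihr

theorem size_map (P : Prot X Y β) (k : β → γ) : (P.map k).size = P.size := by
  induction P with
  | leaf v => rfl
  | alice p l r ihl ihr => simp only [map, size, ihl, ihr]
  | bob p l r ihl ihr => simp only [map, size, ihl, ihr]

end Prot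

/-- The function `F` accepts the graph of `x` and rejects the graph of `y`. -/
def Sep (pos : X → G) (neg : Y → G) (F : G → Bool) (x : X) (y : Y) : Prop :=
  F (pos x) = true ∧ F (neg y) = false

theorem build {B : Set (G → Bool)} (hT : (fun _ => true) ∈ B) (hF : (fun _ => false) ∈ B)
    (pos : X → G) (neg : Y → G) (P : Prot X Y (G → Bool)) :
    ∀ (L : List (G → Bool)), MProg B L → ∀ (X0 : Set X) (Y0 : Set Y),
      (∀ x ∈ X0, ∀ y ∈ Y0, Av B L (P.eval x y) ∧ Sep pos neg (P.eval x y) x y) →
      ∃ L', MProg B (L' ++ L) ∧ L'.length + 1 ≤ P.size ∧ ∃ F, Av B (L' ++ L) F ∧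
        (∀ x ∈ X0, F (pos x) = true) ∧ (∀ y ∈ Y0, F (neg y) = false) := by
  induction P with
  | leaf v =>
    intro L hL X0 Y0 h
    refine ⟨[], by simpa using hL, by simp [Prot.size], ?_⟩
    simp only [List.nil_append]
    rcases X0.eq_empty_or_nonempty with hX | ⟨x0, hx0⟩
    · exact ⟨fun _ => false, Or.inl hF, by simp [hX], by simp⟩
    · rcases Y0.eq_empty_or_nonempty with hY | ⟨y0, hy0⟩
      · exact ⟨fun _ => true, Or.inl hT, by simp, by simp [hY]⟩
      · exact ⟨v, (h x0 hx0 y0 hy0).1, fun x hx => (h x hx y0 hy0).2.1,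
          fun y hy => (h x0 hx0 y hy).2.2⟩
  | alice p l r ihl ihr =>
    intro L hL X0 Y0 h
    obtain ⟨L1, hL1, hs1, F1, hF1, hp1, hn1⟩ := ihl L hL (X0 ∩ {x | p x = true}) Y0 (by
      intro x hx y hy
      have := h x hx.1 y hy
      simp only [Prot.eval, show p x = true from hx.2, if_true] at this
      exact this)
    obtain ⟨L2, hL2, hs2, F2, hF2, hp2, hn2⟩ := ihr (L1 ++ L) hL1 (X0 ∩ {x | p x = false}) Y0 (by
      intro x hx y hy
      have := h x hx.1 y hy
      simp only [Prot.eval, show p x = false from hx.2, Bool.false_eq_true, if_false] at this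
      exact ⟨this.1.mono L1, this.2⟩)
    refine ⟨(fun z => F1 z || F2 z) :: (L2 ++ L1), ?_, ?_, _, Or.inr List.mem_cons_self, ?_, ?_⟩
    · have := MProg.or hL2 (hF1.mono L2) hF2
      simpa using this
    · simp only [Prot.size, List.length_cons, List.length_append]; omega
    · intro x hx
      by_cases hpx : p x = true
      · simp [hp1 x ⟨hx, hpx⟩]
      · simp [hp2 x ⟨hx, by simpa using hpx⟩]
    · intro y hy
      simp [hn1 y hy, hn2 y hy]
  | bob p l r ihl ihr =>
    intro L hL X0 Y0 h
    obtain ⟨L1, hL1, hs1, F1, hF1, hp1, hn1⟩ := ihl L hL X0 (Y0 ∩ {x | p x = true}) (by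
      intro x hx y hy
      have := h x hx y hy.1
      simp only [Prot.eval, show p y = true from hy.2, if_true] at this
      exact this)
    obtain ⟨L2, hL2, hs2, F2, hF2, hp2, hn2⟩ := ihr (L1 ++ L) hL1 X0 (Y0 ∩ {x | p x = false}) (by
      intro x hx y hy
      have := h x hx y hy.1
      simp only [Prot.eval, show p y = false from hy.2, Bool.false_eq_true, if_false] at this
      exact ⟨this.1.mono L1, this.2⟩)
    refine ⟨(fun z => F1 z && F2 z) :: (L2 ++ L1), ?_, ?_, _, Or.inr List.mem_cons_self, ?_, ?_⟩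
    · have := MProg.and hL2 (hF1.mono L2) hF2
      simpa using this
    · simp only [Prot.size, List.length_cons, List.length_append]; omega
    · intro x hx
      simp [hp1 x hx, hp2 x hx]
    · intro y hy
      by_cases hpx : p y = true
      · simp [hn1 y ⟨hy, hpx⟩]
      · simp [hn2 y ⟨hy, by simpa using hpx⟩]

/-- The line `f` has a protocol with at most `c` leaves, where every leaf with the value false is
labelled by an available function which separates the two sides of the rectangle of the leaf. -/
def Lab (B : Set (G → Bool)) (L : List (G → Bool)) (pos : X → G) (neg : Y → G)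
    (f : X → Y → Bool) (c : ℕ) : Prop :=
  ∃ P : Prot X Y (Option (G → Bool)), P.size ≤ c ∧ ∀ x y, (f x y = true → P.eval x y = none) ∧
    (f x y = false → ∃ F, P.eval x y = some F ∧ Av B L F ∧ Sep pos neg F x y)

theorem Lab.mono {B : Set (G → Bool)} {L : List (G → Bool)} {pos : X → G} {neg : Y → G}
    {f : X → Y → Bool} {c : ℕ} (h : Lab B L pos neg f c) (L' : List (G → Bool)) :
    Lab B (L' ++ L) pos neg f c := by
  obtain ⟨P, hP, h⟩ := h
  refine ⟨P, hP, fun x y => ⟨(h x y).1, fun hf => ?_⟩⟩
  obtain ⟨F, h1, h2, h3⟩ := (h x y).2 hf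
  exact ⟨F, h1, h2.mono L', h3⟩

theorem lab_step {B : Set (G → Bool)} (hT : (fun _ => true) ∈ B) (hF : (fun _ => false) ∈ B)
    (pos : X → G) (neg : Y → G) (f : X → Y → Bool) (Q : Prot X Y (Option (G → Bool)))
    (P : Prot X Y Bool) :
    ∀ (L : List (G → Bool)), MProg B L → ∀ (X0 : Set X) (Y0 : Set Y),
      (∀ x ∈ X0, ∀ y ∈ Y0, P.eval x y = f x y) →
      (∀ x ∈ X0, ∀ y ∈ Y0, f x y = false → ∃ F, Q.eval x y = some F ∧ Av B L F ∧
        Sep pos neg F x y) →
      ∃ L', MProg B (L' ++ L) ∧ L'.length ≤ P.size * Q.size ∧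
        ∃ P' : Prot X Y (Option (G → Bool)), P'.size ≤ P.size ∧ ∀ x ∈ X0, ∀ y ∈ Y0,
          (f x y = true → P'.eval x y = none) ∧
          (f x y = false → ∃ F, P'.eval x y = some F ∧ Av B (L' ++ L) F ∧ Sep pos neg F x y) := by
  induction P with
  | leaf v =>
    intro L hL X0 Y0 hP hQ
    cases v with
    | true =>
      refine ⟨[], by simpa using hL, by simp, Prot.leaf none, by simp [Prot.size], ?_⟩
      intro x hx y hy
      refine ⟨fun _ => rfl, fun hf => ?_⟩
      have := hP x hx y hy
      rw [hf] at this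
      simp [Prot.eval] at this
    | false =>
      obtain ⟨L', hL', hs, F, hF', hp, hn⟩ := build hT hF pos neg
        (Q.map (fun o => o.getD (fun _ => false))) L hL X0 Y0 (by
          intro x hx y hy
          have h1 : f x y = false := (hP x hx y hy).symm
          obtain ⟨F, h2, h3, h4⟩ := hQ x hx y hy h1
          rw [Prot.eval_map, h2]
          exact ⟨h3, h4⟩)
      refine ⟨L', hL', ?_, Prot.leaf (some F), by simp [Prot.size], ?_⟩
      · rw [Prot.size_map] at hs
        simp only [Prot.size, one_mul]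
        omega
      · intro x hx y hy
        refine ⟨fun hf => ?_, fun _ => ⟨F, rfl, hF', hp x hx, hn y hy⟩⟩
        have := hP x hx y hy
        rw [hf] at this
        simp [Prot.eval] at this
  | alice p l r ihl ihr =>
    intro L hL X0 Y0 hP hQ
    obtain ⟨L1, hL1, hs1, P1, hP1, h1⟩ := ihl L hL (X0 ∩ {x | p x = true}) Y0 (by
      intro x hx y hy
      have := hP x hx.1 y hy
      simp only [Prot.eval, show p x = true from hx.2, if_true] at this
      exact this) (fun x hx y hy => hQ x hx.1 y hy)
    obtain ⟨L2, hL2, hs2, P2, hP2, h2⟩ := ihr (L1 ++ L) hL1 (X0 ∩ {x | p x = false}) Y0 (by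
      intro x hx y hy
      have := hP x hx.1 y hy
      simp only [Prot.eval, show p x = false from hx.2, Bool.false_eq_true, if_false] at this
      exact this) (by
      intro x hx y hy hf
      obtain ⟨F, g1, g2, g3⟩ := hQ x hx.1 y hy hf
      exact ⟨F, g1, g2.mono L1, g3⟩)
    refine ⟨L2 ++ L1, by simpa using hL2, ?_, Prot.alice p P1 P2, ?_, ?_⟩
    · simp only [Prot.size, List.length_append]; rw [add_mul]; omega
    · simp only [Prot.size]; omega
    · intro x hx y hy
      by_cases hpx : p x = true
      · have := h1 x ⟨hx, hpx⟩ y hy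
        simp only [Prot.eval, hpx, if_true]
        refine ⟨this.1, fun hf => ?_⟩
        obtain ⟨F, g1, g2, g3⟩ := this.2 hf
        exact ⟨F, g1, by simpa using g2.mono L2, g3⟩
      · have hpx' : p x = false := by simpa using hpx
        have := h2 x ⟨hx, hpx'⟩ y hy
        simp only [Prot.eval, hpx', Bool.false_eq_true, if_false]
        refine ⟨this.1, fun hf => ?_⟩
        obtain ⟨F, g1, g2, g3⟩ := this.2 hf
        exact ⟨F, g1, by simpa using g2, g3⟩
  | bob p l r ihl ihr =>
    intro L hL X0 Y0 hP hQ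
    obtain ⟨L1, hL1, hs1, P1, hP1, h1⟩ := ihl L hL X0 (Y0 ∩ {x | p x = true}) (by
      intro x hx y hy
      have := hP x hx y hy.1
      simp only [Prot.eval, show p y = true from hy.2, if_true] at this
      exact this) (fun x hx y hy => hQ x hx y hy.1)
    obtain ⟨L2, hL2, hs2, P2, hP2, h2⟩ := ihr (L1 ++ L) hL1 X0 (Y0 ∩ {x | p x = false}) (by
      intro x hx y hy
      have := hP x hx y hy.1
      simp only [Prot.eval, show p y = false from hy.2, Bool.false_eq_true, if_false] at this
      exact this) (by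
      intro x hx y hy hf
      obtain ⟨F, g1, g2, g3⟩ := hQ x hx y hy.1 hf
      exact ⟨F, g1, g2.mono L1, g3⟩)
    refine ⟨L2 ++ L1, by simpa using hL2, ?_, Prot.bob p P1 P2, ?_, ?_⟩
    · simp only [Prot.size, List.length_append]; rw [add_mul]; omega
    · simp only [Prot.size]; omega
    · intro x hx y hy
      by_cases hpx : p y = true
      · have := h1 x hx y ⟨hy, hpx⟩
        simp only [Prot.eval, hpx, if_true]
        refine ⟨this.1, fun hf => ?_⟩
        obtain ⟨F, g1, g2, g3⟩ := this.2 hf
        exact ⟨F, g1, by simpa using g2.mono L2, g3⟩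
      · have hpx' : p y = false := by simpa using hpx
        have := h2 x hx y ⟨hy, hpx'⟩
        simp only [Prot.eval, hpx', Bool.false_eq_true, if_false]
        refine ⟨this.1, fun hf => ?_⟩
        obtain ⟨F, g1, g2, g3⟩ := this.2 hf
        exact ⟨F, g1, by simpa using g2, g3⟩

/-- The labelled protocols of several lines one after the other. -/
theorem lab_list {B : Set (G → Bool)} {L : List (G → Bool)} {pos : X → G} {neg : Y → G} {c : ℕ}
    (hc : 1 ≤ c) : ∀ S : List (X → Y → Bool), (∀ g ∈ S, Lab B L pos neg g c) →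
      ∃ Q : Prot X Y (Option (G → Bool)), Q.size ≤ c ^ S.length ∧ ∀ x y,
        (∃ g ∈ S, g x y = false) → ∃ F, Q.eval x y = some F ∧ Av B L F ∧ Sep pos neg F x y := by
  intro S
  induction S with
  | nil =>
    intro _
    exact ⟨Prot.leaf none, by simp [Prot.size], by simp⟩
  | cons g S ih =>
    intro h
    obtain ⟨Q, hQ, hQ'⟩ := ih (fun f hf => h f (List.mem_cons_of_mem _ hf))
    obtain ⟨P, hP, hP'⟩ := h g List.mem_cons_self
    refine ⟨P.bind (fun o => match o with
      | none => Q
      | some F => Prot.leaf (some F)), ?_, ?_⟩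
    · refine (Prot.size_bind P _ (c ^ S.length) ?_).trans ?_
      · intro o
        cases o with
        | none => exact hQ
        | some F => simpa [Prot.size] using Nat.one_le_pow _ _ hc
      · rw [List.length_cons, pow_succ, mul_comm]
        exact Nat.mul_le_mul_left _ hP
    · intro x y hxy
      rw [Prot.eval_bind]
      by_cases hg : g x y = true
      · rw [(hP' x y).1 hg]
        apply hQ'
        obtain ⟨f, hf, hf'⟩ := hxy
        rcases List.mem_cons.mp hf with rfl | hf
        · rw [hg] at hf'; exact absurd hf' (by simp)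
        · exact ⟨f, hf, hf'⟩
      · have hg' : g x y = false := by simpa using hg
        obtain ⟨F, h1, h2, h3⟩ := (hP' x y).2 hg'
        rw [h1]
        exact ⟨F, rfl, h2, h3⟩

/-- Lines which follow from one clause: whenever the line is false, one fixed function of the base
separates the two graphs. -/
def Ax (B : Set (G → Bool)) (pos : X → G) (neg : Y → G) (f : X → Y → Bool) : Prop :=
  ∃ F ∈ B, ∀ x y, f x y = false → Sep pos neg F x y

/-- Semantic derivations from axioms, the last line first; every line has a protocol with at most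
`c` leaves and follows from at most `k` lines. -/
inductive Der (B : Set (G → Bool)) (pos : X → G) (neg : Y → G) (c k : ℕ) :
    List (X → Y → Bool) → Prop
  | nil : Der B pos neg c k []
  | cons {f : X → Y → Bool} {Γ : List (X → Y → Bool)} : Der B pos neg c k Γ →
      (∃ P : Prot X Y Bool, P.size ≤ c ∧ ∀ x y, P.eval x y = f x y) →
      (Ax B pos neg f ∨ ∃ S : List (X → Y → Bool), S.length ≤ k ∧ (∀ g ∈ S, g ∈ Γ) ∧
        ∀ x y, (∀ g ∈ S, g x y = true) → f x y = true) → Der B pos neg c k (f :: Γ)

theorem interp {B : Set (G → Bool)} (hT : (fun _ => true) ∈ B) (hF : (fun _ => false) ∈ B)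
    {pos : X → G} {neg : Y → G} {c k : ℕ} (hc : 1 ≤ c) {Γ : List (X → Y → Bool)}
    (h : Der B pos neg c k Γ) :
    ∃ L, MProg B L ∧ L.length ≤ Γ.length * c ^ (k + 1) ∧ ∀ f ∈ Γ, Lab B L pos neg f c := by
  induction h with
  | nil => exact ⟨[], MProg.nil, by simp, by simp⟩
  | @cons f Γ _ hP hf ih =>
    obtain ⟨L, hL, hs, hΓ⟩ := ih
    obtain ⟨P, hPs, hPe⟩ := hP
    have hQ : ∃ Q : Prot X Y (Option (G → Bool)), Q.size ≤ c ^ k ∧ ∀ x y, f x y = false →
        ∃ F, Q.eval x y = some F ∧ Av B L F ∧ Sep pos neg F x y := by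
      rcases hf with ⟨F, hFB, hFs⟩ | ⟨S, hS, hSΓ, hSf⟩
      · exact ⟨Prot.leaf (some F), by simpa [Prot.size] using Nat.one_le_pow _ _ hc,
          fun x y hxy => ⟨F, rfl, Or.inl hFB, hFs x y hxy⟩⟩
      · obtain ⟨Q, hQ, hQ'⟩ := lab_list hc S (fun g hg => hΓ g (hSΓ g hg))
        refine ⟨Q, hQ.trans (Nat.pow_le_pow_right hc hS), fun x y hxy => hQ' x y ?_⟩
        by_contra hcon
        push Not at hcon
        have := hSf x y (fun g hg => by simpa using hcon g hg)
        rw [hxy] at this
        exact absurd this (by simp)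
    obtain ⟨Q, hQs, hQe⟩ := hQ
    obtain ⟨L', hL', hs', P', hP', hlab⟩ := lab_step hT hF pos neg f Q P L hL Set.univ Set.univ
      (fun x _ y _ => hPe x y) (fun x _ y _ => hQe x y)
    refine ⟨L' ++ L, hL', ?_, ?_⟩
    · rw [List.length_append, List.length_cons, add_mul, one_mul]
      have h1 : P.size * Q.size ≤ c ^ (k + 1) := by
        rw [pow_succ, mul_comm]
        exact Nat.mul_le_mul hQs hPs
      omega
    · intro g hg
      rcases List.mem_cons.mp hg with rfl | hg
      · exact ⟨P', hP'.trans hPs, fun x y => hlab x (Set.mem_univ _) y (Set.mem_univ _)⟩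
      · exact (hΓ g hg).mono L'

/-- A refutation gives a monotone program which separates the positive from the negative graphs. -/
theorem interp_final {B : Set (G → Bool)} (hT : (fun _ => true) ∈ B) (hF : (fun _ => false) ∈ B)
    {pos : X → G} {neg : Y → G} {c k : ℕ} (hc : 1 ≤ c) {Γ : List (X → Y → Bool)}
    (h : Der B pos neg c k Γ) (hfalse : (fun _ _ => false) ∈ Γ) :
    ∃ F, MComp B (Γ.length * c ^ (k + 1) + c) F ∧ (∀ x, F (pos x) = true) ∧
      ∀ y, F (neg y) = false := by
  obtain ⟨L, hL, hs, hΓ⟩ := interp hT hF hc h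
  obtain ⟨P, hP, hPe⟩ := hΓ _ hfalse
  obtain ⟨L', hL', hs', F, hF', hp, hn⟩ := build hT hF pos neg
    (P.map (fun o => o.getD (fun _ => false))) L hL Set.univ Set.univ (by
      intro x _ y _
      obtain ⟨F, h2, h3, h4⟩ := (hPe x y).2 rfl
      rw [Prot.eval_map, h2]
      exact ⟨h3, h4⟩)
  refine ⟨F, ⟨L' ++ L, hL', ?_, hF'⟩, fun x => hp x (Set.mem_univ _), fun y => hn y (Set.mem_univ _)⟩
  rw [Prot.size_map] at hs'
  rw [List.length_append]
  omega

end Pool.Agent.J4H72.OB
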