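import Pool.Agent.J4H72.OB.Defs
import Pool.Agent.J4H72.OB.Interp

/-!
# Sweeping programs have short protocols
-/

set_option autoImplicit false

namespace Pool.Agent.J4H72.OB

variable {X Y β γ V : Type}

namespace Prot

/-- Exchange the two players. -/
def swap : Prot X Y β → Prot Y X β
  | leaf v => leaf v
  | alice p l r => bob p l.swap r.swap
  | bob p l r => alice p l.swap r.swap

theorem eval_swap (P : Prot X Y β) (x : X) (y : Y) : P.swap.eval y x = P.eval x y := by
  induction P with
  | leaf v => rfl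
  | alice p l r ihl ihr =>
    simp only [swap, eval]
    split_ifs
    · exact ihl
    · exact ihr
  | bob p l r ihl ihr =>
    simp only [swap, eval]
    split_ifs
    · exact ihl
    · exact ihr

theorem size_swap (P : Prot X Y β) : P.swap.size = P.size := by
  induction P with
  | leaf v => rfl
  | alice p l r ihl ihr => simp only [swap, size, ihl, ihr]
  | bob p l r ihl ihr => simp only [swap, size, ihl, ihr]

theorem ex_alice' [Finite β] [Nonempty β] (f : X → β) (c : ℕ) (hc : (Set.range f).ncard ≤ c)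
    (hc1 : 1 ≤ c) : ∃ P : Prot X Y β, P.size ≤ c ∧ ∀ x y, P.eval x y = f x :=
  ex_alice f c hc1 (Set.toFinite _) hc

theorem ex_bob' [Finite β] [Nonempty β] (f : Y → β) (c : ℕ) (hc : (Set.range f).ncard ≤ c)
    (hc1 : 1 ≤ c) : ∃ P : Prot X Y β, P.size ≤ c ∧ ∀ x y, P.eval x y = f y :=
  ex_bob f c hc1 (Set.toFinite _) hc

end Prot

open Classical in
/-- The assignment given by `a` on `A`, by `b` on `B` and by `z` at the other variables. -/
noncomputable def comb (A B : Finset V) (a b z : V → Bool) : V → Bool :=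
  fun v => if v ∈ A then a v else if v ∈ B then b v else z v

theorem comb_swap (A B : Finset V) (h : Disjoint A B) (a b z : V → Bool) :
    comb A B a b z = comb B A b a z := by
  classical
  funext v
  simp only [comb]
  by_cases h1 : v ∈ A
  · have h2 : v ∉ B := Finset.disjoint_left.mp h h1
    simp [h1, h2]
  · simp [h1]

theorem ncard_range_le_card [Finite β] (f : X → β) : (Set.range f).ncard ≤ Nat.card β := by
  have := Set.ncard_le_ncard (Set.subset_univ (Set.range f)) (Set.toFinite _)
  rwa [Set.ncard_univ] at this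

theorem card_fun_sub (D : Finset V) : Nat.card ({v // v ∈ D} → Bool) = 2 ^ D.card := by
  classical
  rw [Nat.card_eq_fintype_card, Fintype.card_fun, Fintype.card_bool, Fintype.card_coe]

/-- The result of a program depends only on the values of the variables which it reads. -/
theorem run_congr {S : ℕ} (P : Program V S) (x y : V → Bool) (h : ∀ c ∈ P, x c.1 = y c.1) :
    ∀ s, run P x s = run P y s := by
  induction P with
  | nil => intro s; rfl
  | cons c P ih =>
    intro s
    simp only [run, List.foldl_cons]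
    rw [h c List.mem_cons_self]
    exact ih (fun c' hc' => h c' (List.mem_cons_of_mem _ hc')) _

theorem run_append {S : ℕ} (P Q : Program V S) (x : V → Bool) (s : Fin S) :
    run (P ++ Q) x s = run Q x (run P x s) := by
  simp [run, List.foldl_append]

/-- A sweep has a short protocol, if the variables of the first player precede those of the second
player. -/
theorem prot_sweep {S : ℕ} (P : Program V S) (s : Fin S)
    (D A B : Finset V) (hAB : Disjoint A B) (w : ℕ) (π : V → ℕ)
    (hcut : ∀ a ∈ A, ∀ b ∈ B, π a + w < π b)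
    (hP : P.Pairwise (fun a b => a.1 ∉ D → b.1 ∉ D → π a.1 ≤ π b.1 + w))
    (a : X → V → Bool) (b : Y → V → Bool) (z : V → Bool) :
    ∃ Q : Prot X Y (Fin S), Q.size ≤ 2 ^ D.card * (2 ^ D.card * (S * S)) ∧
      ∀ x y, Q.eval x y = run P (comb A B (a x) (b y) z) s := by
  classical
  have hS : 1 ≤ S := by
    have := s.isLt
    omega
  have : Nonempty (Fin S) := ⟨s⟩
  -- the cut
  obtain ⟨P1, P2, hPP, hP1, hP2⟩ : ∃ P1 P2 : Program V S, P = P1 ++ P2 ∧
      (∀ c ∈ P1, c.1 ∉ D → c.1 ∉ B) ∧ (∀ c ∈ P2, c.1 ∉ D → c.1 ∉ A) := by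
    clear this s
    induction P with
    | nil => exact ⟨[], [], rfl, by simp, by simp⟩
    | cons c P ih =>
      rw [List.pairwise_cons] at hP
      by_cases hc : c.1 ∉ D ∧ c.1 ∈ B
      · refine ⟨[], c :: P, rfl, by simp, ?_⟩
        intro c' hc' hD hA
        rcases List.mem_cons.mp hc' with rfl | hc'
        · exact Finset.disjoint_left.mp hAB hA hc.2
        · have h1 := hP.1 c' hc' hc.1 hD
          have h2 := hcut _ hA _ hc.2
          omega
      · obtain ⟨P1, P2, hPP, h1, h2⟩ := ih hP.2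
        refine ⟨c :: P1, P2, by rw [hPP]; rfl, ?_, h2⟩
        intro c' hc' hD hB
        rcases List.mem_cons.mp hc' with rfl | hc'
        · exact hc ⟨hD, hB⟩
        · exact h1 c' hc' hD hB
  -- the values of the exceptional variables
  let ηA : X → ({v // v ∈ D} → Bool) := fun x v => a x v.1
  let ηB : Y → ({v // v ∈ D} → Bool) := fun y v => b y v.1
  -- the completions
  let et : ({v // v ∈ D} → Bool) → ({v // v ∈ D} → Bool) → V → Bool := fun e1 e2 v =>
    if h : v ∈ D then (if v ∈ A then e1 ⟨v, h⟩ else if v ∈ B then e2 ⟨v, h⟩ else z v) else z v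
  let pr : ({v // v ∈ D} → Bool) → ({v // v ∈ D} → Bool) → X → V → Bool := fun e1 e2 x v =>
    if v ∈ D then et e1 e2 v else if v ∈ A then a x v else z v
  let qr : ({v // v ∈ D} → Bool) → ({v // v ∈ D} → Bool) → Y → V → Bool := fun e1 e2 y v =>
    if v ∈ D then et e1 e2 v else if v ∈ B then b y v else z v
  have key1 : ∀ x y s, run P1 (comb A B (a x) (b y) z) s =
      run P1 (pr (ηA x) (ηB y) x) s := by
    intro x y s
    apply run_congr
    intro c hc
    simp only [comb, pr, et, ηA, ηB]
    by_cases hD : c.1 ∈ D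
    · simp only [hD, dif_pos, if_true]
    · have hB := hP1 c hc hD
      simp only [hD, hB, if_false]
  have key2 : ∀ x y s, run P2 (comb A B (a x) (b y) z) s =
      run P2 (qr (ηA x) (ηB y) y) s := by
    intro x y s
    apply run_congr
    intro c hc
    simp only [comb, qr, et, ηA, ηB]
    by_cases hD : c.1 ∈ D
    · simp only [hD, dif_pos, if_true]
    · have hA := hP2 c hc hD
      simp only [hD, hA, if_false]
  have key : ∀ x y, run P (comb A B (a x) (b y) z) s =
      run P2 (qr (ηA x) (ηB y) y) (run P1 (pr (ηA x) (ηB y) x) s) := by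
    intro x y
    rw [hPP, run_append, key1, key2]
  -- the protocol
  obtain ⟨Q1, hQ1, hQ1e⟩ := Prot.ex_alice' (Y := Y) ηA (2 ^ D.card)
    ((ncard_range_le_card _).trans (card_fun_sub D).le) Nat.one_le_two_pow
  obtain ⟨Q2, hQ2, hQ2e⟩ := Prot.ex_bob' (X := X) ηB (2 ^ D.card)
    ((ncard_range_le_card _).trans (card_fun_sub D).le) Nat.one_le_two_pow
  have hQ3 : ∀ e1 e2, ∃ Q : Prot X Y (Fin S), Q.size ≤ S ∧
      ∀ x y, Q.eval x y = run P1 (pr e1 e2 x) s := by
    intro e1 e2
    refine Prot.ex_alice' (fun x => run P1 (pr e1 e2 x) s) S ?_ hS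
    exact (ncard_range_le_card _).trans (by simp)
  choose Q3 hQ3 hQ3e using hQ3
  have hQ4 : ∀ e1 e2 (s' : Fin S), ∃ Q : Prot X Y (Fin S), Q.size ≤ S ∧
      ∀ x y, Q.eval x y = run P2 (qr e1 e2 y) s' := by
    intro e1 e2 s'
    refine Prot.ex_bob' (fun y => run P2 (qr e1 e2 y) s') S ?_ hS
    exact (ncard_range_le_card _).trans (by simp)
  choose Q4 hQ4 hQ4e using hQ4
  refine ⟨Q1.bind (fun e1 => Q2.bind (fun e2 => (Q3 e1 e2).bind (fun s' => Q4 e1 e2 s'))), ?_, ?_⟩
  · refine (Prot.size_bind _ _ (2 ^ D.card * (S * S)) ?_).trans (Nat.mul_le_mul_right _ hQ1)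
    intro e1
    refine (Prot.size_bind _ _ (S * S) ?_).trans (Nat.mul_le_mul_right _ hQ2)
    intro e2
    exact (Prot.size_bind _ _ S (fun s' => hQ4 e1 e2 s')).trans (Nat.mul_le_mul_right _ (hQ3 e1 e2))
  · intro x y
    rw [key x y, Prot.eval_bind, hQ1e, Prot.eval_bind, hQ2e, Prot.eval_bind, hQ3e, hQ4e]

/-- The same for both directions. -/
theorem prot_sweep2 {S : ℕ} (P : Program V S) (s : Fin S)
    (D A B : Finset V) (hAB : Disjoint A B) (w : ℕ) (π : V → ℕ)
    (hcut : (∀ a ∈ A, ∀ b ∈ B, π a + w < π b) ∨ (∀ a ∈ A, ∀ b ∈ B, π b + w < π a))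
    (hP : P.Pairwise (fun a b => a.1 ∉ D → b.1 ∉ D → π a.1 ≤ π b.1 + w))
    (a : X → V → Bool) (b : Y → V → Bool) (z : V → Bool) :
    ∃ Q : Prot X Y (Fin S), Q.size ≤ 2 ^ D.card * (2 ^ D.card * (S * S)) ∧
      ∀ x y, Q.eval x y = run P (comb A B (a x) (b y) z) s := by
  rcases hcut with hcut | hcut
  · exact prot_sweep P s D A B hAB w π hcut hP a b z
  · obtain ⟨Q, hQ, hQe⟩ := prot_sweep P s D B A hAB.symm w π
      (fun b hb a ha => hcut a ha b hb) hP b a z
    refine ⟨Q.swap, by rw [Prot.size_swap]; exact hQ, fun x y => ?_⟩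
    rw [Prot.eval_swap, hQe, comb_swap A B hAB]

/-- Protocols for several sweeps one after the other. -/
theorem prot_sweeps {S : ℕ} (c : ℕ) (t : X → Y → V → Bool) : ∀ (Ps : List (Program V S)),
    (∀ P ∈ Ps, ∀ s, ∃ Q : Prot X Y (Fin S), Q.size ≤ c ∧ ∀ x y, Q.eval x y = run P (t x y) s) →
      ∀ s, ∃ Q : Prot X Y (Fin S), Q.size ≤ c ^ Ps.length ∧
        ∀ x y, Q.eval x y = run Ps.flatten (t x y) s := by
  intro Ps
  induction Ps with
  | nil =>
    intro _ s
    exact ⟨Prot.leaf s, by simp [Prot.size], fun x y => rfl⟩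
  | cons P Ps ih =>
    intro h s
    obtain ⟨Q, hQ, hQe⟩ := h P List.mem_cons_self s
    choose R hR hRe using ih (fun P hP => h P (List.mem_cons_of_mem _ hP))
    refine ⟨Q.bind (fun s => R s), ?_, ?_⟩
    · refine (Prot.size_bind _ _ (c ^ Ps.length) hR).trans ?_
      rw [List.length_cons, pow_succ, mul_comm]
      exact Nat.mul_le_mul_left _ hQ
    · intro x y
      rw [Prot.eval_bind, hQe, hRe, List.flatten_cons, run_append]

end Pool.Agent.J4H72.OB
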