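import Pool.Agent.H520R2.Raz2

/-!
# Deterministic protocols with two players

`Prot X Y β` : protocol trees, the first player knows `x : X`, the second one `y : Y`; the leaves
are labelled by elements of `β`.
-/

set_option autoImplicit false

namespace Pool.Agent.J4H72.OB

open Pool.Agent.H520R2

variable {X Y β γ : Type}

/-- Protocol trees. -/
inductive Prot (X Y β : Type) : Type
  | leaf (v : β) : Prot X Y β
  | alice (p : X → Bool) (l r : Prot X Y β) : Prot X Y β
  | bob (p : Y → Bool) (l r : Prot X Y β) : Prot X Y β

namespace Prot

/-- The value of a protocol. -/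
def eval : Prot X Y β → X → Y → β
  | leaf v, _, _ => v
  | alice p l r, x, y => if p x then l.eval x y else r.eval x y
  | bob p l r, x, y => if p y then l.eval x y else r.eval x y

/-- The number of leaves. -/
def size : Prot X Y β → ℕ
  | leaf _ => 1
  | alice _ l r => l.size + r.size
  | bob _ l r => l.size + r.size

/-- Continue at each leaf with another protocol. -/
def bind : Prot X Y β → (β → Prot X Y γ) → Prot X Y γ
  | leaf v, k => k v
  | alice p l r, k => alice p (l.bind k) (r.bind k)
  | bob p l r, k => bob p (l.bind k) (r.bind k)

theorem size_pos (P : Prot X Y β) : 1 ≤ P.size := by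
  induction P with
  | leaf v => simp [size]
  | alice p l r ihl ihr => simp only [size]; omega
  | bob p l r ihl ihr => simp only [size]; omega

theorem eval_bind (P : Prot X Y β) (k : β → Prot X Y γ) (x : X) (y : Y) :
    (P.bind k).eval x y = (k (P.eval x y)).eval x y := by
  induction P with
  | leaf v => rfl
  | alice p l r ihl ihr =>
    simp only [bind, eval]
    split_ifs
    · exact ihl
    · exact ihr
  | bob p l r ihl ihr =>
    simp only [bind, eval]
    split_ifs
    · exact ihl
    · exact ihr

theorem size_bind (P : Prot X Y β) (k : β → Prot X Y γ) (d : ℕ) (hk : ∀ v, (k v).size ≤ d) :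
    (P.bind k).size ≤ P.size * d := by
  induction P with
  | leaf v => simpa [bind, size] using hk v
  | alice p l r ihl ihr => simp only [bind, size]; rw [add_mul]; exact Nat.add_le_add ihl ihr
  | bob p l r ihl ihr => simp only [bind, size]; rw [add_mul]; exact Nat.add_le_add ihl ihr

/-- The first player announces which of `c` classes contains `x`. -/
theorem exists_alice (f : X → β) : ∀ (l : List β) (b : β),
    ∃ P : Prot X Y β, P.size ≤ l.length + 1 ∧ ∀ x y, (f x ∈ l ∨ f x = b) → P.eval x y = f x := by
  classical
  intro l
  induction l with
  | nil =>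
    intro b
    refine ⟨leaf b, by simp [size], ?_⟩
    intro x y h
    rcases h with h | h
    · simp at h
    · exact h.symm
  | cons a l ih =>
    intro b
    obtain ⟨P, hP, hPe⟩ := ih b
    refine ⟨alice (fun x => decide (f x = a)) (leaf a) P, ?_, ?_⟩
    · simp only [size, List.length_cons]; omega
    · intro x y h
      simp only [eval, decide_eq_true_eq]
      split_ifs with h1
      · exact h1.symm
      · apply hPe
        rcases h with h | h
        · rcases List.mem_cons.mp h with h | h
          · exact absurd h h1
          · exact Or.inl h
        · exact Or.inr h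

/-- The second player announces which of `c` classes contains `y`. -/
theorem exists_bob (f : Y → β) : ∀ (l : List β) (b : β),
    ∃ P : Prot X Y β, P.size ≤ l.length + 1 ∧ ∀ x y, (f y ∈ l ∨ f y = b) → P.eval x y = f y := by
  classical
  intro l
  induction l with
  | nil =>
    intro b
    refine ⟨leaf b, by simp [size], ?_⟩
    intro x y h
    rcases h with h | h
    · simp at h
    · exact h.symm
  | cons a l ih =>
    intro b
    obtain ⟨P, hP, hPe⟩ := ih b
    refine ⟨bob (fun x => decide (f x = a)) (leaf a) P, ?_, ?_⟩
    · simp only [size, List.length_cons]; omega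
    · intro x y h
      simp only [eval, decide_eq_true_eq]
      split_ifs with h1
      · exact h1.symm
      · apply hPe
        rcases h with h | h
        · rcases List.mem_cons.mp h with h | h
          · exact absurd h h1
          · exact Or.inl h
        · exact Or.inr h

/-- The first player announces the value of `f x`, `c` possible values. -/
theorem ex_alice (f : X → β) (c : ℕ) (hc : 1 ≤ c) (hf : (Set.range f).Finite)
    (hcard : (Set.range f).ncard ≤ c) [Nonempty β] :
    ∃ P : Prot X Y β, P.size ≤ c ∧ ∀ x y, P.eval x y = f x := by
  classical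
  rcases isEmpty_or_nonempty X with hX | hX
  · exact ⟨leaf (Classical.arbitrary β), by simpa [size] using hc, fun x => hX.elim x⟩
  · obtain ⟨x0⟩ := hX
    set S := hf.toFinset.erase (f x0) with hS
    have hcS : S.card + 1 ≤ c := by
      have h1 : f x0 ∈ hf.toFinset := by simp
      have h2 := Finset.card_erase_of_mem h1
      rw [← hS] at h2
      have h3 : hf.toFinset.card ≤ c := by
        rwa [Set.ncard_eq_toFinset_card _ hf] at hcard
      have h4 : 1 ≤ hf.toFinset.card := Finset.card_pos.mpr ⟨_, h1⟩
      omega
    obtain ⟨P, hP, hPe⟩ := exists_alice (Y := Y) f S.toList (f x0)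
    refine ⟨P, ?_, ?_⟩
    · rw [Finset.length_toList] at hP; omega
    · intro x y
      apply hPe
      by_cases h : f x = f x0
      · exact Or.inr h
      · left
        rw [Finset.mem_toList, hS, Finset.mem_erase]
        exact ⟨h, by simp⟩

/-- The second player announces the value of `f y`, `c` possible values. -/
theorem ex_bob (f : Y → β) (c : ℕ) (hc : 1 ≤ c) (hf : (Set.range f).Finite)
    (hcard : (Set.range f).ncard ≤ c) [Nonempty β] :
    ∃ P : Prot X Y β, P.size ≤ c ∧ ∀ x y, P.eval x y = f y := by
  classical
  rcases isEmpty_or_nonempty Y with hY | hY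
  · exact ⟨leaf (Classical.arbitrary β), by simpa [size] using hc, fun _ y => hY.elim y⟩
  · obtain ⟨x0⟩ := hY
    set S := hf.toFinset.erase (f x0) with hS
    have hcS : S.card + 1 ≤ c := by
      have h1 : f x0 ∈ hf.toFinset := by simp
      have h2 := Finset.card_erase_of_mem h1
      rw [← hS] at h2
      have h3 : hf.toFinset.card ≤ c := by
        rwa [Set.ncard_eq_toFinset_card _ hf] at hcard
      have h4 : 1 ≤ hf.toFinset.card := Finset.card_pos.mpr ⟨_, h1⟩
      omega
    obtain ⟨P, hP, hPe⟩ := exists_bob (X := X) f S.toList (f x0)
    refine ⟨P, ?_, ?_⟩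
    · rw [Finset.length_toList] at hP; omega
    · intro x y
      apply hPe
      by_cases h : f y = f x0
      · exact Or.inr h
      · left
        rw [Finset.mem_toList, hS, Finset.mem_erase]
        exact ⟨h, by simp⟩

end Prot

end Pool.Agent.J4H72.OB
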