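import Pool.Agent.J4H72.OB.RDefs
import Pool.Agent.H520R2.Raz

/-!
# Monotone real programs which separate cliques from colourings are long

Jukna's tree argument with norms: the monomials are sets of vertices, the clauses are sets of
edges, up to the equivalence relation which they generate.
-/

set_option autoImplicit false

namespace Pool.Agent.J4H72.OB

open Finset

section combi

variable {W : Type} [Fintype W] [DecidableEq W]

/-- The vertices `u` and `v` are connected by edges of `F`. -/
def conn (F : Finset (W × W)) (u v : W) : Prop := Relation.EqvGen (fun a b => (a, b) ∈ F) u v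

/-- The colouring is constant along the edges of `F`. -/
def monoc {κ : ℕ} (c : W → Fin κ) (F : Finset (W × W)) : Prop := ∀ e ∈ F, c e.1 = c e.2

omit [Fintype W] [DecidableEq W] in
theorem monoc_conn {κ : ℕ} {c : W → Fin κ} {F : Finset (W × W)} (h : monoc c F) {u v : W}
    (huv : conn F u v) : c u = c v := by
  induction huv with
  | rel a b hab => exact h _ hab
  | refl a => rfl
  | symm a b _ ih => exact ih.symm
  | trans a b d _ _ ih1 ih2 => exact ih1.trans ih2

/-- The vertices of the edges of `F`. -/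
def tch (F : Finset (W × W)) : Finset W := F.image Prod.fst ∪ F.image Prod.snd

omit [Fintype W] in
theorem tch_card (F : Finset (W × W)) : (tch F).card ≤ 2 * F.card := by
  refine (card_union_le _ _).trans ?_
  have h1 : (F.image Prod.fst).card ≤ F.card := card_image_le
  have h2 : (F.image Prod.snd).card ≤ F.card := card_image_le
  omega

omit [Fintype W] in
theorem conn_tch {F : Finset (W × W)} {u v : W} (huv : conn F u v) :
    u = v ∨ (u ∈ tch F ∧ v ∈ tch F) := by
  induction huv with
  | rel a b hab =>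
    right
    exact ⟨mem_union_left _ (mem_image.mpr ⟨_, hab, rfl⟩),
      mem_union_right _ (mem_image.mpr ⟨_, hab, rfl⟩)⟩
  | refl a => exact Or.inl rfl
  | symm a b _ ih =>
    rcases ih with ih | ih
    · exact Or.inl ih.symm
    · exact Or.inr ⟨ih.2, ih.1⟩
  | trans a b d _ _ ih1 ih2 =>
    rcases ih1 with rfl | ih1
    · exact ih2
    · rcases ih2 with rfl | ih2
      · exact Or.inr ih1
      · exact Or.inr ⟨ih1.1, ih2.2⟩

/-- The clause `F` contains an edge inside of `S`, up to connection. -/
def HitS (F : Finset (W × W)) (S : Finset W) : Prop := ∃ u ∈ S, ∃ v ∈ S, u ≠ v ∧ conn F u v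

omit [Fintype W] [DecidableEq W] in
theorem not_monoc_of_hit {κ : ℕ} {c : W → Fin κ} {F : Finset (W × W)} {S : Finset W}
    (hc : Set.InjOn c (S : Set W)) (h : HitS F S) : ¬ monoc c F := by
  obtain ⟨u, hu, v, hv, huv, hcon⟩ := h
  intro hm
  exact huv (hc hu hv (monoc_conn hm hcon))

/-- The next clause, common to all members of a chain. -/
theorem chain_pick {A T : Type} [Finite T] (K : A → Set T)
    (hch : ∀ a b, K a ⊆ K b ∨ K b ⊆ K a) (good hit : T → Prop) (hg : ∀ a, ∀ c ∈ K a, good c)
    (d : T) (hd : good d) :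
    ∃ κ : T, good κ ∧ ∀ a, (∃ c ∈ K a, ¬ hit c) → κ ∈ K a ∧ ¬ hit κ := by
  classical
  by_cases h : ∃ a, ∃ c ∈ K a, ¬ hit c
  · obtain ⟨n, hn, hmin⟩ : ∃ n, (∃ a, (∃ c ∈ K a, ¬ hit c) ∧ (K a).ncard = n) ∧
        ∀ n', (∃ a, (∃ c ∈ K a, ¬ hit c) ∧ (K a).ncard = n') → n ≤ n' := by
      have hex : ∃ n, ∃ a, (∃ c ∈ K a, ¬ hit c) ∧ (K a).ncard = n := by
        obtain ⟨a, ha⟩ := h
        exact ⟨_, a, ha, rfl⟩
      exact ⟨Nat.find hex, Nat.find_spec hex, fun n' hn' => Nat.find_min' hex hn'⟩
    obtain ⟨a0, ⟨κ, hκ, hκm⟩, hn0⟩ := hn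
    refine ⟨κ, hg a0 κ hκ, fun a ha => ⟨?_, hκm⟩⟩
    have hle : (K a0).ncard ≤ (K a).ncard := by
      rw [hn0]
      exact hmin _ ⟨a, ha, rfl⟩
    rcases hch a0 a with h1 | h1
    · exact h1 hκ
    · have : K a = K a0 := Set.eq_of_subset_of_ncard_le h1 hle (Set.toFinite _)
      rw [this]
      exact hκ
  · exact ⟨d, hd, fun a ha => absurd ⟨a, ha⟩ h⟩

open Classical in
/-- The number of colourings which are constant along `F`. -/
noncomputable def cntN (κ : ℕ) (F : Finset (W × W)) : ℕ :=
  (univ.filter (fun c : W → Fin κ => monoc c F)).card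

theorem cntN_insert {κ : ℕ} (F : Finset (W × W)) {u v : W} (huv : ¬ conn F u v) :
    cntN κ (insert (u, v) F) * κ ≤ cntN κ F := by
  classical
  rcases Nat.eq_zero_or_pos κ with h0 | h0
  · subst h0
    simp
  have : NeZero κ := ⟨by omega⟩
  have h1 : ((univ.filter (fun c : W → Fin κ => monoc c (insert (u, v) F))) ×ˢ
      (univ : Finset (Fin κ))).card ≤ (univ.filter (fun c : W → Fin κ => monoc c F)).card := by
    apply card_le_card_of_injOn (fun z x => if conn F u x then z.1 x + z.2 else z.1 x)
    · rintro ⟨c, t⟩ hz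
      rw [mem_coe, mem_product, mem_filter] at hz
      rw [coe_filter]
      refine ⟨mem_univ _, ?_⟩
      rintro ⟨a, b⟩ hab
      have h2 : c a = c b := hz.1.2 (a, b) (mem_insert_of_mem hab)
      have h3 : conn F a b := Relation.EqvGen.rel _ _ hab
      have h4 : conn F u a ↔ conn F u b :=
        ⟨fun h => Relation.EqvGen.trans _ _ _ h h3,
          fun h => Relation.EqvGen.trans _ _ _ h (Relation.EqvGen.symm _ _ h3)⟩
      simp only [h4, h2]
    · rintro ⟨c, t⟩ hz ⟨c', t'⟩ hz' hzz
      rw [mem_coe, mem_product, mem_filter] at hz hz'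
      have hu : conn F u u := Relation.EqvGen.refl _
      have e1 : c u = c v := hz.1.2 (u, v) (mem_insert_self _ _)
      have e2 : c' u = c' v := hz'.1.2 (u, v) (mem_insert_self _ _)
      have e3 := congrFun hzz u
      have e4 := congrFun hzz v
      simp only [hu, huv, if_true, if_false] at e3 e4
      have e5 : t = t' := by
        rw [e1, e2, e4] at e3
        exact add_left_cancel e3
      subst e5
      have e6 : c = c' := by
        funext x
        have e7 := congrFun hzz x
        simp only at e7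
        by_cases hx : conn F u x
        · simp only [hx, if_true] at e7
          exact add_right_cancel e7
        · simpa only [hx, if_false] using e7
      rw [e6]
  rw [card_product, card_univ, Fintype.card_fin] at h1
  exact h1

/-- The tree argument for the negative tests. -/
theorem switchN {κ : ℕ} {A : Type} (D : A → Set (Finset W)) (hch : ∀ a b, D a ⊆ D b ∨ D b ⊆ D a)
    (R : ℕ) (hR : ∀ a, ∀ S ∈ D a, S.card ≤ R) (j : ℕ) :
    ∃ E : Finset (Finset (W × W)), (∀ F ∈ E, F.card ≤ j ∧
        cntN κ F * κ ^ j ≤ κ ^ Fintype.card W) ∧ E.card ≤ (R ^ 2) ^ j ∧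
      ∀ (a : A) (c : W → Fin κ), (∀ S ∈ D a, ¬ Set.InjOn c (S : Set W)) →
        (∃ F : Finset (W × W), F.card + 1 ≤ j ∧ monoc c F ∧ ∀ S ∈ D a, HitS F S) ∨
        ∃ F ∈ E, monoc c F := by
  classical
  induction j with
  | zero =>
    refine ⟨{∅}, ?_, by simp, fun a c _ => Or.inr ⟨∅, by simp, by intro e he; simp at he⟩⟩
    intro F hF
    rw [mem_singleton] at hF
    subst hF
    refine ⟨by simp, ?_⟩
    rw [pow_zero, mul_one]
    calc cntN κ (∅ : Finset (W × W)) ≤ (univ : Finset (W → Fin κ)).card := card_filter_le _ _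
      _ = κ ^ Fintype.card W := by simp
  | succ j ih =>
    obtain ⟨E, hE, hEc, hx⟩ := ih
    choose σ hσR hσ using fun F : Finset (W × W) =>
      chain_pick D hch (fun S => S.card ≤ R) (HitS F) hR ∅ (by simp)
    refine ⟨E.biUnion (fun F => (((σ F) ×ˢ (σ F)).filter (fun p => ¬ conn F p.1 p.2)).image
      (fun p => insert p F)), ?_, ?_, ?_⟩
    · intro F' hF'
      rw [mem_biUnion] at hF'
      obtain ⟨F, hF, hF'⟩ := hF'
      rw [mem_image] at hF'
      obtain ⟨⟨u, v⟩, hp, rfl⟩ := hF'
      rw [mem_filter] at hp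
      obtain ⟨h1, h2⟩ := hE F hF
      refine ⟨(card_insert_le _ _).trans (by omega), ?_⟩
      have h3 := cntN_insert (κ := κ) F hp.2
      calc cntN κ (insert (u, v) F) * κ ^ (j + 1) = (cntN κ (insert (u, v) F) * κ) * κ ^ j := by
            ring
        _ ≤ cntN κ F * κ ^ j := Nat.mul_le_mul_right _ h3
        _ ≤ _ := h2
    · refine card_biUnion_le.trans ?_
      calc _ ≤ ∑ F ∈ E, R ^ 2 := by
            apply sum_le_sum
            intro F _
            refine card_image_le.trans ((card_filter_le _ _).trans ?_)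
            rw [card_product, pow_two]
            exact Nat.mul_le_mul (hσR F) (hσR F)
        _ = E.card * R ^ 2 := by simp
        _ ≤ (R ^ 2) ^ j * R ^ 2 := Nat.mul_le_mul_right _ hEc
        _ = _ := (pow_succ _ j).symm
    · intro a c hD
      rcases hx a c hD with ⟨F, h1, h2, h3⟩ | ⟨F, hF, hFm⟩
      · exact Or.inl ⟨F, by omega, h2, h3⟩
      · by_cases hall : ∀ S ∈ D a, HitS F S
        · exact Or.inl ⟨F, by have := (hE F hF).1; omega, hFm, hall⟩
        · right
          push Not at hall
          obtain ⟨h1, h2⟩ := hσ F a hall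
          have h3 := hD _ h1
          unfold Set.InjOn at h3
          push Not at h3
          obtain ⟨u, hu, v, hv, hcuv, huv⟩ := h3
          refine ⟨insert (u, v) F, ?_, ?_⟩
          · rw [mem_biUnion]
            refine ⟨F, hF, ?_⟩
            rw [mem_image]
            refine ⟨(u, v), ?_, rfl⟩
            rw [mem_filter, mem_product]
            exact ⟨⟨hu, hv⟩, fun hcon => h2 ⟨u, hu, v, hv, huv, hcon⟩⟩
          · intro e he
            rcases mem_insert.mp he with rfl | he
            · exact hcuv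
            · exact hFm e he

end combi

section pos

variable {k q : ℕ}

/-- All vertices of `S` are chosen by `π`. -/
def accS (S : Finset (Fin k × Fin q)) (π : Fin k → Fin q) : Prop := ∀ x ∈ S, x.2 = π x.1

/-- The clique of `π` contains an edge of `F`, up to connection. -/
def satP (F : Finset ((Fin k × Fin q) × (Fin k × Fin q))) (π : Fin k → Fin q) : Prop :=
  ∃ u v, u ≠ v ∧ conn F u v ∧ u.2 = π u.1 ∧ v.2 = π v.1

theorem satP_of_hit {F : Finset ((Fin k × Fin q) × (Fin k × Fin q))}
    {S : Finset (Fin k × Fin q)} {π : Fin k → Fin q} (hS : accS S π) (h : HitS F S) : satP F π := by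
  obtain ⟨u, hu, v, hv, huv, hcon⟩ := h
  exact ⟨u, v, huv, hcon, hS u hu, hS v hv⟩

/-- The tree argument for the positive tests. -/
theorem switchP {τ A : Type} [Fintype τ]
    (K : τ → A → Set (Finset ((Fin k × Fin q) × (Fin k × Fin q))))
    (hch : ∀ t a b, K t a ⊆ K t b ∨ K t b ⊆ K t a) (s : ℕ)
    (hs : ∀ t a, ∀ F ∈ K t a, F.card ≤ s) (j : ℕ) :
    ∃ E : Finset (Finset (Fin k × Fin q)), (∀ S ∈ E, j ≤ S.card ∧ S.card ≤ 2 * j) ∧
      E.card ≤ (Fintype.card τ * (4 * s ^ 2)) ^ j ∧
      ∀ (b : τ → A) (π : Fin k → Fin q), (∀ t, ∀ F ∈ K t (b t), satP F π) →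
        (∃ S : Finset (Fin k × Fin q), S.card + 2 ≤ 2 * j ∧ accS S π ∧
          ∀ t, ∀ F ∈ K t (b t), HitS F S) ∨ ∃ S ∈ E, accS S π := by
  classical
  induction j with
  | zero =>
    refine ⟨{∅}, by simp, by simp, fun b π _ => Or.inr ⟨∅, by simp, by intro x hx; simp at hx⟩⟩
  | succ j ih =>
    obtain ⟨E, hE, hEc, hx⟩ := ih
    choose σ hσs hσ using fun (t : τ) (S : Finset (Fin k × Fin q)) =>
      chain_pick (K t) (hch t) (fun F => F.card ≤ s) (fun F => HitS F S) (hs t) ∅ (by simp)
    refine ⟨E.biUnion (fun S => (univ : Finset τ).biUnion (fun t =>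
      (((tch (σ t S)) ×ˢ (tch (σ t S))).filter (fun p => ¬ (p.1 ∈ S ∧ p.2 ∈ S))).image
        (fun p => insert p.1 (insert p.2 S)))), ?_, ?_, ?_⟩
    · intro S' hS'
      simp only [mem_biUnion, mem_image, mem_filter, mem_univ, true_and] at hS'
      obtain ⟨S, hS, t, ⟨u, v⟩, ⟨-, hp⟩, rfl⟩ := hS'
      obtain ⟨h1, h2⟩ := hE S hS
      have h3 : (insert u (insert v S)).card ≤ S.card + 2 := by
        have e1 := card_insert_le u (insert v S)
        have e2 := card_insert_le v S
        omega
      have h4 : S.card + 1 ≤ (insert u (insert v S)).card := by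
        simp only at hp
        by_cases hv : v ∈ S
        · have hu : u ∉ S := fun hu => hp ⟨hu, hv⟩
          rw [insert_eq_of_mem hv, card_insert_of_notMem hu]
        · have e1 : (insert v S).card = S.card + 1 := card_insert_of_notMem hv
          rw [← e1]
          exact card_le_card (subset_insert _ _)
      simp only
      omega
    · refine card_biUnion_le.trans ?_
      calc _ ≤ ∑ S ∈ E, Fintype.card τ * (4 * s ^ 2) := by
            apply sum_le_sum
            intro S _
            refine card_biUnion_le.trans ?_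
            calc _ ≤ ∑ _t : τ, 4 * s ^ 2 := by
                  apply sum_le_sum
                  intro t _
                  refine card_image_le.trans ((card_filter_le _ _).trans ?_)
                  rw [card_product]
                  have h1 : (tch (σ t S)).card ≤ 2 * s :=
                    (tch_card _).trans (Nat.mul_le_mul_left _ (hσs t S))
                  calc (tch (σ t S)).card * (tch (σ t S)).card ≤ (2 * s) * (2 * s) :=
                        Nat.mul_le_mul h1 h1
                    _ = 4 * s ^ 2 := by ring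
              _ = _ := by simp
        _ = E.card * (Fintype.card τ * (4 * s ^ 2)) := by simp
        _ ≤ (Fintype.card τ * (4 * s ^ 2)) ^ j * (Fintype.card τ * (4 * s ^ 2)) :=
            Nat.mul_le_mul_right _ hEc
        _ = _ := (pow_succ _ j).symm
    · intro b π hb
      rcases hx b π hb with ⟨S, h1, h2, h3⟩ | ⟨S, hS, hSπ⟩
      · exact Or.inl ⟨S, by omega, h2, h3⟩
      · by_cases hall : ∀ t, ∀ F ∈ K t (b t), HitS F S
        · exact Or.inl ⟨S, by have := (hE S hS).2; omega, hSπ, hall⟩
        · right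
          push Not at hall
          obtain ⟨t, ht⟩ := hall
          obtain ⟨h1, h2⟩ := hσ t S (b t) ht
          obtain ⟨u, v, huv, hcon, hu, hv⟩ := hb t _ h1
          have htch := (conn_tch hcon).resolve_left huv
          refine ⟨insert u (insert v S), ?_, ?_⟩
          · rw [mem_biUnion]
            refine ⟨S, hS, ?_⟩
            rw [mem_biUnion]
            refine ⟨t, mem_univ _, ?_⟩
            rw [mem_image]
            refine ⟨(u, v), ?_, rfl⟩
            rw [mem_filter, mem_product]
            exact ⟨htch, fun hcon2 => h2 ⟨u, hcon2.1, v, hcon2.2, huv, hcon⟩⟩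
          · intro x hx
            rcases mem_insert.mp hx with rfl | hx
            · exact hu
            · rcases mem_insert.mp hx with rfl | hx
              · exact hv
              · exact hSπ x hx

/-- The approximators of a function on the tests. -/
structure ApxC {κ : ℕ} (r s : ℕ) (E : Finset (Finset (Fin k × Fin q)))
    (E' : Finset (Finset ((Fin k × Fin q) × (Fin k × Fin q)))) (f : Tst k q κ → ℝ)
    (C : ℝ → Set (Finset ((Fin k × Fin q) × (Fin k × Fin q))))
    (D : ℝ → Set (Finset (Fin k × Fin q))) : Prop where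
  hC : ∀ a, ∀ F ∈ C a, F.card ≤ s
  hD : ∀ a, ∀ S ∈ D a, S.card ≤ 2 * r
  monoC : ∀ a a', a ≤ a' → C a ⊆ C a'
  antiD : ∀ a a', a ≤ a' → D a' ⊆ D a
  hit : ∀ a, ∀ S ∈ D a, ∀ F ∈ C a, HitS F S
  pos : ∀ π, (∃ S ∈ E, accS S π) ∨ ∀ a ≤ f (Sum.inl π), ∃ S ∈ D a, accS S π
  neg : ∀ a c, (∀ F ∈ C a, ¬ monoc c F) → (∃ F ∈ E', monoc c F) ∨ a ≤ f (Sum.inr c)

theorem ApxC.mono {κ r s : ℕ} {E E1 : Finset (Finset (Fin k × Fin q))}
    {E' E1' : Finset (Finset ((Fin k × Fin q) × (Fin k × Fin q)))} {f : Tst k q κ → ℝ}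
    {C : ℝ → Set (Finset ((Fin k × Fin q) × (Fin k × Fin q)))}
    {D : ℝ → Set (Finset (Fin k × Fin q))} (h : ApxC r s E E' f C D) (hE : E ⊆ E1)
    (hE' : E' ⊆ E1') : ApxC r s E1 E1' f C D where
  hC := h.hC
  hD := h.hD
  monoC := h.monoC
  antiD := h.antiD
  hit := h.hit
  pos π := (h.pos π).imp (fun ⟨S, hS, hS'⟩ => ⟨S, hE hS, hS'⟩) id
  neg a c hc := (h.neg a c hc).imp (fun ⟨F, hF, hF'⟩ => ⟨F, hE' hF, hF'⟩) id

theorem leafC {κ r s : ℕ} (hr : 1 ≤ r) (hs : 1 ≤ s) (u v : Fin k × Fin q)
    (E : Finset (Finset (Fin k × Fin q)))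
    (E' : Finset (Finset ((Fin k × Fin q) × (Fin k × Fin q)))) :
    ∃ C D, ApxC (κ := κ) r s E E' (edge u v) C D := by
  classical
  refine ⟨fun a => {F | (F = {(u, v)} ∧ 0 < a) ∨ (F = ∅ ∧ 1 < a)},
    fun a => {S | (S = ∅ ∧ a ≤ 0) ∨ (u ≠ v ∧ S = {u, v} ∧ a ≤ 1)}, ?_, ?_, ?_, ?_, ?_, ?_, ?_⟩
  · rintro a F (⟨rfl, _⟩ | ⟨rfl, _⟩)
    · simpa using hs
    · simp
  · rintro a S (⟨rfl, _⟩ | ⟨_, rfl, _⟩)
    · simp
    · exact (card_insert_le _ _).trans (by simp; omega)
  · rintro a a' haa F (⟨rfl, h⟩ | ⟨rfl, h⟩)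
    · exact Or.inl ⟨rfl, lt_of_lt_of_le h haa⟩
    · exact Or.inr ⟨rfl, lt_of_lt_of_le h haa⟩
  · rintro a a' haa S (⟨rfl, h⟩ | ⟨huv, rfl, h⟩)
    · exact Or.inl ⟨rfl, haa.trans h⟩
    · exact Or.inr ⟨huv, rfl, haa.trans h⟩
  · rintro a S (⟨rfl, h⟩ | ⟨huv, rfl, h⟩) F (⟨rfl, h'⟩ | ⟨rfl, h'⟩)
    · linarith
    · linarith
    · exact ⟨u, by simp, v, by simp, huv, Relation.EqvGen.rel _ _ (by simp)⟩
    · linarith
  · intro π
    right
    intro a ha
    by_cases h0 : a ≤ 0
    · exact ⟨∅, Or.inl ⟨rfl, h0⟩, by intro x hx; simp at hx⟩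
    · simp only [edge] at ha
      split_ifs at ha with h1
      · refine ⟨{u, v}, Or.inr ⟨h1.1, rfl, ha⟩, ?_⟩
        intro x hx
        rcases mem_insert.mp hx with rfl | hx
        · exact h1.2.1
        · rw [mem_singleton.mp hx]
          exact h1.2.2
      · exact absurd ha h0
  · intro a c hc
    right
    simp only [edge]
    by_cases h0 : a ≤ 0
    · split_ifs
      · exact h0
      · linarith
    · push Not at h0
      have h1 := hc {(u, v)} (Or.inl ⟨rfl, h0⟩)
      have h2 : c u ≠ c v := by
        intro h3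
        apply h1
        intro e he
        rw [mem_singleton.mp he]
        exact h3
      rw [if_neg h2]
      by_contra h3
      push Not at h3
      exact hc ∅ (Or.inr ⟨rfl, h3⟩) (by intro e he; simp at he)

/-- The main approximation lemma. -/
theorem approxC {κ : ℕ} (r s K : ℕ) (hr : 1 ≤ r) (hs : 1 ≤ s)
    {L : List (Tst k q κ → ℝ)} (hL : RP (EB k q κ) K L) :
    ∃ (E : Finset (Finset (Fin k × Fin q)))
      (E' : Finset (Finset ((Fin k × Fin q) × (Fin k × Fin q)))),
      E.card ≤ L.length * (K * (4 * s ^ 2)) ^ (r + 1) ∧ (∀ S ∈ E, r + 1 ≤ S.card) ∧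
      E'.card ≤ L.length * (4 * r ^ 2) ^ (s + 1) ∧
      (∀ F ∈ E', cntN κ F * κ ^ (s + 1) ≤ κ ^ Fintype.card (Fin k × Fin q)) ∧
      ∀ f, (f ∈ EB k q κ ∨ f ∈ L) → ∃ C D, ApxC r s E E' f C D := by
  classical
  induction hL with
  | nil =>
    refine ⟨∅, ∅, by simp, by simp, by simp, by simp, ?_⟩
    intro f hf
    rcases hf with ⟨u, v, rfl⟩ | hf
    · exact leafC hr hs u v _ _
    · simp at hf
  | @gate L w hw φ hφ f hL hf ih =>
    obtain ⟨E, E', hEc, hE, hEc', hE', H⟩ := ih
    choose C D hA using fun j => H (f j) (hf j)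
    -- the two trees
    obtain ⟨E1, hE1, hE1c, hsw⟩ := switchP (fun j : Fin w => C j)
      (fun j a b => (le_total a b).imp ((hA j).monoC a b) ((hA j).monoC b a)) s
      (fun j a => (hA j).hC a) (r + 1)
    let Dg : ℝ → Set (Finset (Fin k × Fin q)) := fun a =>
      {S | S.card ≤ 2 * r ∧ ∃ b : Fin w → ℝ, a ≤ φ b ∧ ∀ j, ∀ F ∈ C j (b j), HitS F S}
    have hDg : ∀ a a', a ≤ a' → Dg a' ⊆ Dg a := by
      rintro a a' haa S ⟨h1, b, h2, h3⟩
      exact ⟨h1, b, haa.trans h2, h3⟩
    obtain ⟨E2, hE2, hE2c, hsw2⟩ := switchN (κ := κ) Dg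
      (fun a b => (le_total a b).symm.imp (hDg b a) (hDg a b)) (2 * r) (fun a S hS => hS.1) (s + 1)
    let Cg : ℝ → Set (Finset ((Fin k × Fin q) × (Fin k × Fin q))) := fun a =>
      {F | F.card ≤ s ∧ ∀ S ∈ Dg a, HitS F S}
    have hE1c' : E1.card ≤ (K * (4 * s ^ 2)) ^ (r + 1) := by
      refine hE1c.trans (Nat.pow_le_pow_left ?_ _)
      rw [Fintype.card_fin]
      exact Nat.mul_le_mul_right _ hw
    have hE2c' : E2.card ≤ (4 * r ^ 2) ^ (s + 1) := by
      refine hE2c.trans (Nat.pow_le_pow_left ?_ _)
      rw [mul_pow]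
      norm_num
    refine ⟨E ∪ E1, E' ∪ E2, ?_, ?_, ?_, ?_, ?_⟩
    · calc (E ∪ E1).card ≤ E.card + E1.card := card_union_le _ _
        _ ≤ L.length * (K * (4 * s ^ 2)) ^ (r + 1) + (K * (4 * s ^ 2)) ^ (r + 1) :=
            Nat.add_le_add hEc hE1c'
        _ = _ := by rw [List.length_cons]; ring
    · intro S hS
      rcases mem_union.mp hS with h | h
      · exact hE S h
      · exact (hE1 S h).1
    · calc (E' ∪ E2).card ≤ E'.card + E2.card := card_union_le _ _
        _ ≤ L.length * (4 * r ^ 2) ^ (s + 1) + (4 * r ^ 2) ^ (s + 1) :=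
            Nat.add_le_add hEc' hE2c'
        _ = _ := by rw [List.length_cons]; ring
    · intro F hF
      rcases mem_union.mp hF with h | h
      · exact hE' F h
      · exact (hE2 F h).2
    · intro g hg
      have hold : (g ∈ EB k q κ ∨ g ∈ L) → ∃ C D, ApxC r s (E ∪ E1) (E' ∪ E2) g C D := by
        intro h
        obtain ⟨C0, D0, h0⟩ := H g h
        exact ⟨C0, D0, h0.mono subset_union_left subset_union_left⟩
      rcases hg with hg | hg
      · exact hold (Or.inl hg)
      rcases List.mem_cons.mp hg with rfl | hg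
      · refine ⟨Cg, Dg, ?_⟩
        exact
          { hC := fun a F hF => hF.1
            hD := fun a S hS => hS.1
            monoC := by
              rintro a a' haa F ⟨h1, h2⟩
              exact ⟨h1, fun S hS => h2 S (hDg a a' haa hS)⟩
            antiD := hDg
            hit := fun a S hS F hF => hF.2 S hS
            pos := by
              intro π
              by_cases hEx : ∃ S ∈ E, accS S π
              · obtain ⟨S, hS, hSπ⟩ := hEx
                exact Or.inl ⟨S, mem_union_left _ hS, hSπ⟩
              · have hc : ∀ j, ∀ F ∈ C j (f j (Sum.inl π)), satP F π := by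
                  intro j F hF
                  rcases (hA j).pos π with h | h
                  · exact absurd h hEx
                  · obtain ⟨S, hS, hSπ⟩ := h _ le_rfl
                    exact satP_of_hit hSπ ((hA j).hit _ S hS F hF)
                rcases hsw (fun j => f j (Sum.inl π)) π hc with ⟨S, h1, h2, h3⟩ | ⟨S, hS, hSπ⟩
                · right
                  intro a ha
                  exact ⟨S, ⟨by omega, fun j => f j (Sum.inl π), ha, h3⟩, h2⟩
                · exact Or.inl ⟨S, mem_union_right _ hS, hSπ⟩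
            neg := by
              intro a c hc
              by_cases hEx : ∃ F ∈ E' ∪ E2, monoc c F
              · exact Or.inl hEx
              · right
                have hDx : ∃ S ∈ Dg a, Set.InjOn c (S : Set (Fin k × Fin q)) := by
                  by_contra hcon
                  push Not at hcon
                  rcases hsw2 a c hcon with ⟨F, h1, h2, h3⟩ | ⟨F, hF, hFm⟩
                  · exact hc F ⟨by omega, h3⟩ h2
                  · exact hEx ⟨F, mem_union_right _ hF, hFm⟩
                obtain ⟨S, ⟨-, b, hb, hS⟩, hinj⟩ := hDx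
                refine hb.trans (hφ ?_)
                intro j
                rcases (hA j).neg (b j) c (fun F hF => not_monoc_of_hit hinj (hS j F hF)) with
                  ⟨F, hF, hFm⟩ | h
                · exact absurd ⟨F, mem_union_left _ hF, hFm⟩ hEx
                · exact h }
      · exact hold (Or.inr hg)

open Classical in
theorem accS_count (S : Finset (Fin k × Fin q)) :
    (univ.filter (fun π : Fin k → Fin q => accS S π)).card * q ^ S.card ≤ q ^ k := by
  refine le_trans (Nat.mul_le_mul_right _ (card_le_card ?_))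
    (Pool.Agent.H520R2.hit_card (id : Fin k × Fin q → _) Function.injective_id S)
  intro π hπ
  rw [mem_filter] at hπ
  simp only [Pool.Agent.H520R2.hit, mem_filter, mem_univ, true_and]
  intro x hx
  exact ⟨x.1, Prod.ext rfl (hπ.2 x hx)⟩

end pos

/-- The lower bound for monotone real programs which separate the cliques from the colourings. -/
theorem t_clique : S_clique := by
  classical
  intro k q κ r s K hq hκ hr hs hsq L hL f hf θ hpos hneg
  obtain ⟨E, E', hEc, hE, hEc', hE', H⟩ := approxC (κ := κ) r s K hr hs hL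
  obtain ⟨C, D, hA⟩ := H f hf
  by_cases hC : C θ = ∅
  · left
    have hall : (univ : Finset (Fin k × Fin q → Fin κ)) ⊆
        E'.biUnion (fun F => univ.filter (fun c => monoc c F)) := by
      intro c _
      rcases hA.neg θ c (by rw [hC]; intro F hF; exact absurd hF (Set.notMem_empty F)) with
        ⟨F, hF, hFm⟩ | h
      · rw [mem_biUnion]
        exact ⟨F, hF, mem_filter.mpr ⟨mem_univ _, hFm⟩⟩
      · exact absurd (hneg c) (not_lt.mpr h)
    have h1 := card_le_card hall
    rw [card_univ, Fintype.card_fun, Fintype.card_fin] at h1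
    have h2 : κ ^ Fintype.card (Fin k × Fin q) * κ ^ (s + 1) ≤
        κ ^ Fintype.card (Fin k × Fin q) * E'.card := by
      calc κ ^ Fintype.card (Fin k × Fin q) * κ ^ (s + 1) ≤
            (∑ F ∈ E', cntN κ F) * κ ^ (s + 1) :=
            Nat.mul_le_mul_right _ (h1.trans card_biUnion_le)
        _ = ∑ F ∈ E', cntN κ F * κ ^ (s + 1) := sum_mul _ _ _
        _ ≤ ∑ F ∈ E', κ ^ Fintype.card (Fin k × Fin q) := sum_le_sum (fun F hF => hE' F hF)
        _ = _ := by simp [mul_comm]
    exact (Nat.le_of_mul_le_mul_left h2 (by positivity)).trans hEc'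
  · right
    obtain ⟨F0, hF0⟩ := Set.nonempty_iff_ne_empty.mpr hC
    have hall : (univ : Finset (Fin k → Fin q)) ⊆
        (E.biUnion (fun S => univ.filter (fun π => accS S π))) ∪
        ((((tch F0) ×ˢ (tch F0)).filter (fun p => p.1 ≠ p.2)).biUnion
          (fun p => univ.filter (fun π => accS {p.1, p.2} π))) := by
      intro π _
      rcases hA.pos π with ⟨S, hS, hSπ⟩ | h
      · apply mem_union_left
        rw [mem_biUnion]
        exact ⟨S, hS, mem_filter.mpr ⟨mem_univ _, hSπ⟩⟩
      · apply mem_union_right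
        obtain ⟨S, hS, hSπ⟩ := h θ (hpos π)
        obtain ⟨u, v, huv, hcon, hu, hv⟩ := satP_of_hit hSπ (hA.hit θ S hS F0 hF0)
        rw [mem_biUnion]
        refine ⟨(u, v), ?_, ?_⟩
        · rw [mem_filter, mem_product]
          exact ⟨(conn_tch hcon).resolve_left huv, huv⟩
        · rw [mem_filter]
          refine ⟨mem_univ _, ?_⟩
          intro x hx
          rcases mem_insert.mp hx with rfl | hx
          · exact hu
          · rw [mem_singleton.mp hx]
            exact hv
    have h1 := (card_le_card hall).trans (card_union_le _ _)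
    rw [card_univ, Fintype.card_fun, Fintype.card_fin, Fintype.card_fin] at h1
    -- the second part
    have h2 : (((((tch F0) ×ˢ (tch F0)).filter (fun p => p.1 ≠ p.2)).biUnion
          (fun p => (univ : Finset (Fin k → Fin q)).filter (fun π => accS {p.1, p.2} π))).card) *
          q ^ 2 ≤ (4 * s ^ 2) * q ^ k := by
      calc _ ≤ (∑ p ∈ ((tch F0) ×ˢ (tch F0)).filter (fun p => p.1 ≠ p.2),
            ((univ : Finset (Fin k → Fin q)).filter (fun π => accS {p.1, p.2} π)).card) * q ^ 2 :=
            Nat.mul_le_mul_right _ card_biUnion_le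
        _ = ∑ p ∈ ((tch F0) ×ˢ (tch F0)).filter (fun p => p.1 ≠ p.2),
            ((univ : Finset (Fin k → Fin q)).filter (fun π => accS {p.1, p.2} π)).card * q ^ 2 :=
            sum_mul _ _ _
        _ ≤ ∑ p ∈ ((tch F0) ×ˢ (tch F0)).filter (fun p => p.1 ≠ p.2), q ^ k := by
            apply sum_le_sum
            intro p hp
            have h3 := accS_count (k := k) (q := q) {p.1, p.2}
            rw [card_pair (mem_filter.mp hp).2] at h3
            exact h3
        _ = (((tch F0) ×ˢ (tch F0)).filter (fun p => p.1 ≠ p.2)).card * q ^ k := by simp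
        _ ≤ (4 * s ^ 2) * q ^ k := by
            apply Nat.mul_le_mul_right
            refine (card_filter_le _ _).trans ?_
            rw [card_product]
            have h4 : (tch F0).card ≤ 2 * s :=
              (tch_card _).trans (Nat.mul_le_mul_left _ (hA.hC θ F0 hF0))
            calc (tch F0).card * (tch F0).card ≤ (2 * s) * (2 * s) := Nat.mul_le_mul h4 h4
              _ = 4 * s ^ 2 := by ring
    -- the first part
    have h3 : (E.biUnion (fun S => (univ : Finset (Fin k → Fin q)).filter
        (fun π => accS S π))).card * q ^ (r + 1) ≤ E.card * q ^ k := by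
      calc _ ≤ (∑ S ∈ E, ((univ : Finset (Fin k → Fin q)).filter (fun π => accS S π)).card) *
            q ^ (r + 1) := Nat.mul_le_mul_right _ card_biUnion_le
        _ = ∑ S ∈ E, ((univ : Finset (Fin k → Fin q)).filter (fun π => accS S π)).card *
            q ^ (r + 1) := sum_mul _ _ _
        _ ≤ ∑ S ∈ E, q ^ k := by
            apply sum_le_sum
            intro S hS
            refine le_trans (Nat.mul_le_mul_left _ ?_) (accS_count S)
            exact Nat.pow_le_pow_right hq (hE S hS)
        _ = _ := by simp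
    set a1 := (E.biUnion (fun S => (univ : Finset (Fin k → Fin q)).filter
        (fun π => accS S π))).card
    set a2 := ((((tch F0) ×ˢ (tch F0)).filter (fun p => p.1 ≠ p.2)).biUnion
          (fun p => (univ : Finset (Fin k → Fin q)).filter (fun π => accS {p.1, p.2} π))).card
    have hqk : 0 < q ^ k := Nat.pow_pos hq
    have hq2 : 0 < q ^ 2 := Nat.pow_pos hq
    have h4 : 2 * a2 ≤ q ^ k := by
      have h5 : (2 * a2) * q ^ 2 ≤ q ^ k * q ^ 2 := by
        calc (2 * a2) * q ^ 2 = 2 * (a2 * q ^ 2) := by ring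
          _ ≤ 2 * ((4 * s ^ 2) * q ^ k) := Nat.mul_le_mul_left _ h2
          _ = (8 * s ^ 2) * q ^ k := by ring
          _ ≤ q ^ 2 * q ^ k := Nat.mul_le_mul_right _ hsq
          _ = _ := by ring
      exact Nat.le_of_mul_le_mul_right h5 hq2
    have h5 : q ^ k ≤ 2 * a1 := by omega
    have h6 : q ^ (r + 1) * q ^ k ≤ (2 * E.card) * q ^ k := by
      calc q ^ (r + 1) * q ^ k ≤ q ^ (r + 1) * (2 * a1) := Nat.mul_le_mul_left _ h5
        _ = 2 * (a1 * q ^ (r + 1)) := by ring
        _ ≤ 2 * (E.card * q ^ k) := Nat.mul_le_mul_left _ h3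
        _ = _ := by ring
    exact (Nat.le_of_mul_le_mul_right h6 hqk).trans (Nat.mul_le_mul_left _ hEc)

end Pool.Agent.J4H72.OB
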