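import Mathlib

/-!
# Monotone real programs on cliques and colourings: statement of the lower bound
-/

set_option autoImplicit false

namespace Pool.Agent.J4H72.OB

/-- Programs of monotone real gates with at most `K` inputs over the functions of `B`, the last
computed function first. -/
inductive RP {X : Type} (B : Set (X → ℝ)) (K : ℕ) : List (X → ℝ) → Prop
  | nil : RP B K []
  | gate {L : List (X → ℝ)} (w : ℕ) (hw : w ≤ K) (φ : (Fin w → ℝ) → ℝ) (hφ : Monotone φ)
      (f : Fin w → X → ℝ) (hL : RP B K L) (hf : ∀ j, f j ∈ B ∨ f j ∈ L) :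
      RP B K ((fun x => φ (fun j => f j x)) :: L)

/-- The tests: a choice of one vertex from each of the `k` parts with `q` vertices (the clique of
these vertices), or a colouring of the vertices with `κ` colours (the complete multipartite graph
of the colouring). -/
abbrev Tst (k q κ : ℕ) : Type := (Fin k → Fin q) ⊕ (Fin k × Fin q → Fin κ)

/-- The indicator function of the edge `u v`. -/
noncomputable def edge {k q κ : ℕ} (u v : Fin k × Fin q) : Tst k q κ → ℝ
  | Sum.inl π => if u ≠ v ∧ u.2 = π u.1 ∧ v.2 = π v.1 then 1 else 0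
  | Sum.inr c => if c u = c v then 0 else 1

/-- The edge functions. -/
def EB (k q κ : ℕ) : Set (Tst k q κ → ℝ) := {f | ∃ u v, f = edge u v}

/-- The lower bound for monotone real programs which separate the cliques from the colourings
(Jukna's tree argument, monomials are sets of at most `2 r` vertices, clauses are sets of at most
`s` edges up to the equivalence relation which they generate). -/
def S_clique : Prop :=
  ∀ (k q κ r s K : ℕ), 1 ≤ q → 1 ≤ κ → 1 ≤ r → 1 ≤ s → 8 * s ^ 2 ≤ q ^ 2 →
    ∀ L : List (Tst k q κ → ℝ), RP (EB k q κ) K L →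
    ∀ f : Tst k q κ → ℝ, (f ∈ EB k q κ ∨ f ∈ L) → ∀ θ : ℝ, (∀ π, θ ≤ f (Sum.inl π)) →
      (∀ c, f (Sum.inr c) < θ) →
      κ ^ (s + 1) ≤ L.length * (4 * r ^ 2) ^ (s + 1) ∨
        q ^ (r + 1) ≤ 2 * (L.length * (K * (4 * s ^ 2)) ^ (r + 1))

end Pool.Agent.J4H72.OB
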