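import Pool.Agent.J4H72.OB.Interp
import Pool.Agent.J4H72.OB.RDefs

/-!
# Monotone real interpolation for semantic refutations

Every line has a protocol whose leaves carry comparisons of a number of the first player with a
number of the second player.
-/

set_option autoImplicit false

namespace Pool.Agent.J4H72.OB

variable {X Y G : Type}

/-- The function `f` is in the base or computed by the program. -/
def AvR (B : Set (G → ℝ)) (L : List (G → ℝ)) (f : G → ℝ) : Prop := f ∈ B ∨ f ∈ L

theorem AvR.mono {B : Set (G → ℝ)} {L : List (G → ℝ)} {f : G → ℝ} (h : AvR B L f)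
    (L' : List (G → ℝ)) : AvR B (L' ++ L) f := by
  rcases h with h | h
  · exact Or.inl h
  · exact Or.inr (List.mem_append_right _ h)

/-- `F` is above `α` at the positive tests of `X0` and below `β` at the negative tests of `Y0`. -/
def SepR (pos : X → G) (neg : Y → G) (α : X → ℝ) (β : Y → ℝ) (X0 : Set X) (Y0 : Set Y)
    (F : G → ℝ) : Prop :=
  (∀ x ∈ X0, α x ≤ F (pos x)) ∧ ∀ y ∈ Y0, F (neg y) ≤ β y

/-- The monotone real gate of a triangle which is covered by several triangles. -/
theorem gate_lemma [Finite X] [Finite Y] (pos : X → G) (neg : Y → G) {m : ℕ} (f : Fin m → G → ℝ)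
    (α : X → ℝ) (β : Y → ℝ) (X0 : Set X) (Y0 : Set Y)
    (h : ∀ x ∈ X0, ∀ y ∈ Y0, β y < α x → ∃ j, f j (neg y) < f j (pos x)) :
    ∃ φ : (Fin m → ℝ) → ℝ, Monotone φ ∧ SepR pos neg α β X0 Y0 (fun z => φ (fun j => f j z)) := by
  classical
  obtain ⟨b0, hb0⟩ : ∃ b0 : ℝ, ∀ y, b0 ≤ β y := by
    obtain ⟨b0, hb0⟩ := (Set.finite_range β).bddBelow
    exact ⟨b0, fun y => hb0 ⟨y, rfl⟩⟩
  let S : (Fin m → ℝ) → Set ℝ := fun t => {a | a = b0 ∨ ∃ x ∈ X0, α x = a ∧ ∀ j, f j (pos x) ≤ t j}
  have hfin : ∀ t, (S t).Finite := by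
    intro t
    apply ((Set.finite_range α).insert b0).subset
    rintro a (rfl | ⟨x, _, rfl, _⟩)
    · exact Set.mem_insert _ _
    · exact Set.mem_insert_of_mem _ ⟨x, rfl⟩
  have hne : ∀ t, (S t).Nonempty := fun t => ⟨b0, Or.inl rfl⟩
  refine ⟨fun t => sSup (S t), ?_, ?_, ?_⟩
  · intro t t' htt
    apply csSup_le_csSup (hfin t').bddAbove (hne t)
    rintro a (rfl | ⟨x, hx, rfl, hxt⟩)
    · exact Or.inl rfl
    · exact Or.inr ⟨x, hx, rfl, fun j => (hxt j).trans (htt j)⟩
  · intro x hx
    exact le_csSup (hfin _).bddAbove (Or.inr ⟨x, hx, rfl, fun j => le_rfl⟩)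
  · intro y hy
    apply csSup_le (hne _)
    rintro a (rfl | ⟨x, hx, rfl, hxt⟩)
    · exact hb0 y
    · by_contra hcon
      push Not at hcon
      obtain ⟨j, hj⟩ := h x hx y hy hcon
      exact absurd (hxt j) (not_le.mpr hj)

theorem buildR [Finite X] [Finite Y] {B : Set (G → ℝ)} {K : ℕ} (hK : 2 ≤ K)
    (pos : X → G) (neg : Y → G) (α : X → ℝ) (β : Y → ℝ) (Q : Prot X Y (List (G → ℝ))) :
    ∀ (L : List (G → ℝ)), RP B K L → ∀ (X0 : Set X) (Y0 : Set Y),
      (∀ x ∈ X0, ∀ y ∈ Y0, (∀ F ∈ Q.eval x y, AvR B L F) ∧ (Q.eval x y).length ≤ K ∧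
        (β y < α x → ∃ F ∈ Q.eval x y, F (neg y) < F (pos x))) →
      ∃ L', RP B K (L' ++ L) ∧ L'.length + 1 ≤ 2 * Q.size ∧ ∃ F, AvR B (L' ++ L) F ∧
        SepR pos neg α β X0 Y0 F := by
  induction Q with
  | leaf v =>
    intro L hL X0 Y0 h
    have h' : ∀ x ∈ X0, ∀ y ∈ Y0, (∀ F ∈ v, AvR B L F) ∧ v.length ≤ K ∧
        (β y < α x → ∃ F ∈ v, F (neg y) < F (pos x)) := h
    by_cases hne : X0.Nonempty ∧ Y0.Nonempty
    · obtain ⟨⟨x0, hx0⟩, ⟨y0, hy0⟩⟩ := hne
      obtain ⟨φ, hφ, hsep⟩ := gate_lemma pos neg (fun j : Fin v.length => v.get j) α β X0 Y0 (by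
        intro x hx y hy hlt
        obtain ⟨F, hF, hF'⟩ := (h' x hx y hy).2.2 hlt
        obtain ⟨j, hj⟩ := List.get_of_mem hF
        exact ⟨j, by rw [hj]; exact hF'⟩)
      refine ⟨[fun z => φ (fun j => v.get j z)], ?_, by simp [Prot.size], _,
        Or.inr (List.mem_append_left _ (List.mem_singleton.mpr rfl)), hsep⟩
      exact RP.gate v.length (h' x0 hx0 y0 hy0).2.1 φ hφ (fun j => v.get j) hL
        (fun j => (h' x0 hx0 y0 hy0).1 _ (List.get_mem v j))
    · let e : Fin 0 → G → ℝ := fun j => j.elim0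
      obtain ⟨φ, hφ, hsep⟩ := gate_lemma pos neg e α β X0 Y0 (by
        intro x hx y hy _
        exact absurd ⟨⟨x, hx⟩, ⟨y, hy⟩⟩ hne)
      refine ⟨[fun z => φ (fun j => e j z)], ?_, by simp [Prot.size], _,
        Or.inr (List.mem_append_left _ (List.mem_singleton.mpr rfl)), hsep⟩
      exact RP.gate 0 (by omega) φ hφ e hL (fun j => j.elim0)
  | alice p l r ihl ihr =>
    intro L hL X0 Y0 h
    obtain ⟨L1, hL1, hs1, F1, hF1, hp1, hn1⟩ := ihl L hL (X0 ∩ {x | p x = true}) Y0 (by
      intro x hx y hy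
      have := h x hx.1 y hy
      simp only [Prot.eval, show p x = true from hx.2, if_true] at this
      exact this)
    obtain ⟨L2, hL2, hs2, F2, hF2, hp2, hn2⟩ := ihr (L1 ++ L) hL1 (X0 ∩ {x | p x = false}) Y0 (by
      intro x hx y hy
      have := h x hx.1 y hy
      simp only [Prot.eval, show p x = false from hx.2, Bool.false_eq_true, if_false] at this
      exact ⟨fun F hF => (this.1 F hF).mono L1, this.2⟩)
    refine ⟨(fun z => (fun t : Fin 2 → ℝ => max (t 0) (t 1)) (fun j => (![F1, F2] : Fin 2 → G → ℝ) j z))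
      :: (L2 ++ L1), ?_, ?_, _, Or.inr List.mem_cons_self, ?_, ?_⟩
    · have := RP.gate (B := B) (K := K) (L := L2 ++ (L1 ++ L)) 2 hK
        (fun t : Fin 2 → ℝ => max (t 0) (t 1))
        (fun t t' htt => max_le_max (htt 0) (htt 1)) ![F1, F2] hL2 (by
          intro j
          fin_cases j
          · exact hF1.mono L2
          · exact hF2)
      simpa only [List.cons_append, List.append_assoc] using this
    · simp only [Prot.size, List.length_cons, List.length_append]; omega
    · intro x hx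
      by_cases hpx : p x = true
      · exact (hp1 x ⟨hx, hpx⟩).trans (le_max_left _ _)
      · exact (hp2 x ⟨hx, by simpa using hpx⟩).trans (le_max_right _ _)
    · intro y hy
      exact max_le (hn1 y hy) (hn2 y hy)
  | bob p l r ihl ihr =>
    intro L hL X0 Y0 h
    obtain ⟨L1, hL1, hs1, F1, hF1, hp1, hn1⟩ := ihl L hL X0 (Y0 ∩ {x | p x = true}) (by
      intro x hx y hy
      have := h x hx y hy.1
      simp only [Prot.eval, show p y = true from hy.2, if_true] at this
      exact this)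
    obtain ⟨L2, hL2, hs2, F2, hF2, hp2, hn2⟩ := ihr (L1 ++ L) hL1 X0 (Y0 ∩ {x | p x = false}) (by
      intro x hx y hy
      have := h x hx y hy.1
      simp only [Prot.eval, show p y = false from hy.2, Bool.false_eq_true, if_false] at this
      exact ⟨fun F hF => (this.1 F hF).mono L1, this.2⟩)
    refine ⟨(fun z => (fun t : Fin 2 → ℝ => min (t 0) (t 1)) (fun j => (![F1, F2] : Fin 2 → G → ℝ) j z))
      :: (L2 ++ L1), ?_, ?_, _, Or.inr List.mem_cons_self, ?_, ?_⟩
    · have := RP.gate (B := B) (K := K) (L := L2 ++ (L1 ++ L)) 2 hK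
        (fun t : Fin 2 → ℝ => min (t 0) (t 1))
        (fun t t' htt => min_le_min (htt 0) (htt 1)) ![F1, F2] hL2 (by
          intro j
          fin_cases j
          · exact hF1.mono L2
          · exact hF2)
      simpa only [List.cons_append, List.append_assoc] using this
    · simp only [Prot.size, List.length_cons, List.length_append]; omega
    · intro x hx
      exact le_min (hp1 x hx) (hp2 x hx)
    · intro y hy
      by_cases hpy : p y = true
      · exact (min_le_left _ _).trans (hn1 y ⟨hy, hpy⟩)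
      · exact (min_le_right _ _).trans (hn2 y ⟨hy, by simpa using hpy⟩)

/-- The line `f` has a protocol with at most `c` leaves, which are labelled by available functions
which separate the two tests whenever the line is false. -/
def LabR (B : Set (G → ℝ)) (L : List (G → ℝ)) (pos : X → G) (neg : Y → G)
    (f : X → Y → Bool) (c : ℕ) : Prop :=
  ∃ P : Prot X Y (G → ℝ), P.size ≤ c ∧ ∀ x y, AvR B L (P.eval x y) ∧
    (f x y = false → P.eval x y (neg y) < P.eval x y (pos x))

theorem LabR.mono {B : Set (G → ℝ)} {L : List (G → ℝ)} {pos : X → G} {neg : Y → G}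
    {f : X → Y → Bool} {c : ℕ} (h : LabR B L pos neg f c) (L' : List (G → ℝ)) :
    LabR B (L' ++ L) pos neg f c := by
  obtain ⟨P, hP, h⟩ := h
  exact ⟨P, hP, fun x y => ⟨(h x y).1.mono L', (h x y).2⟩⟩

theorem stepR [Finite X] [Finite Y] {B : Set (G → ℝ)} {K : ℕ} (hK : 2 ≤ K)
    (pos : X → G) (neg : Y → G) (f : X → Y → Bool) (Q : Prot X Y (List (G → ℝ)))
    (P : Prot X Y ((X → ℝ) × (Y → ℝ))) :
    ∀ (L : List (G → ℝ)), RP B K L → ∀ (X0 : Set X) (Y0 : Set Y),
      (∀ x ∈ X0, ∀ y ∈ Y0, (f x y = false ↔ (P.eval x y).2 y < (P.eval x y).1 x)) →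
      (∀ x ∈ X0, ∀ y ∈ Y0, (∀ F ∈ Q.eval x y, AvR B L F) ∧ (Q.eval x y).length ≤ K ∧
        (f x y = false → ∃ F ∈ Q.eval x y, F (neg y) < F (pos x))) →
      ∃ L', RP B K (L' ++ L) ∧ L'.length ≤ 2 * (P.size * Q.size) ∧
        ∃ P' : Prot X Y (G → ℝ), P'.size ≤ P.size ∧ ∀ x ∈ X0, ∀ y ∈ Y0,
          AvR B (L' ++ L) (P'.eval x y) ∧
          (f x y = false → P'.eval x y (neg y) < P'.eval x y (pos x)) := by
  induction P with
  | leaf v =>
    intro L hL X0 Y0 hP hQ
    obtain ⟨L', hL', hs, F, hF, hp, hn⟩ := buildR hK pos neg v.1 v.2 Q L hL X0 Y0 (by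
      intro x hx y hy
      refine ⟨(hQ x hx y hy).1, (hQ x hx y hy).2.1, fun hlt => ?_⟩
      exact (hQ x hx y hy).2.2 ((hP x hx y hy).mpr hlt))
    refine ⟨L', hL', ?_, Prot.leaf F, by simp [Prot.size], ?_⟩
    · simp only [Prot.size, one_mul]
      omega
    · intro x hx y hy
      refine ⟨hF, fun hf => ?_⟩
      have := (hP x hx y hy).mp hf
      simp only [Prot.eval] at this ⊢
      exact lt_of_le_of_lt (hn y hy) (lt_of_lt_of_le this (hp x hx))
  | alice p l r ihl ihr =>
    intro L hL X0 Y0 hP hQ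
    obtain ⟨L1, hL1, hs1, P1, hP1, h1⟩ := ihl L hL (X0 ∩ {x | p x = true}) Y0 (by
      intro x hx y hy
      have := hP x hx.1 y hy
      simp only [Prot.eval, show p x = true from hx.2, if_true] at this
      exact this) (fun x hx y hy => hQ x hx.1 y hy)
    obtain ⟨L2, hL2, hs2, P2, hP2, h2⟩ := ihr (L1 ++ L) hL1 (X0 ∩ {x | p x = false}) Y0 (by
      intro x hx y hy
      have := hP x hx.1 y hy
      simp only [Prot.eval, show p x = false from hx.2, Bool.false_eq_true, if_false] at this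
      exact this) (by
      intro x hx y hy
      obtain ⟨g1, g2⟩ := hQ x hx.1 y hy
      exact ⟨fun F hF => (g1 F hF).mono L1, g2⟩)
    refine ⟨L2 ++ L1, by simpa using hL2, ?_, Prot.alice p P1 P2, ?_, ?_⟩
    · simp only [Prot.size, List.length_append]; rw [add_mul]; omega
    · simp only [Prot.size]; omega
    · intro x hx y hy
      by_cases hpx : p x = true
      · have := h1 x ⟨hx, hpx⟩ y hy
        simp only [Prot.eval, hpx, if_true]
        exact ⟨by simpa using this.1.mono L2, this.2⟩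
      · have hpx' : p x = false := by simpa using hpx
        have := h2 x ⟨hx, hpx'⟩ y hy
        simp only [Prot.eval, hpx', Bool.false_eq_true, if_false]
        exact ⟨by simpa using this.1, this.2⟩
  | bob p l r ihl ihr =>
    intro L hL X0 Y0 hP hQ
    obtain ⟨L1, hL1, hs1, P1, hP1, h1⟩ := ihl L hL X0 (Y0 ∩ {x | p x = true}) (by
      intro x hx y hy
      have := hP x hx y hy.1
      simp only [Prot.eval, show p y = true from hy.2, if_true] at this
      exact this) (fun x hx y hy => hQ x hx y hy.1)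
    obtain ⟨L2, hL2, hs2, P2, hP2, h2⟩ := ihr (L1 ++ L) hL1 X0 (Y0 ∩ {x | p x = false}) (by
      intro x hx y hy
      have := hP x hx y hy.1
      simp only [Prot.eval, show p y = false from hy.2, Bool.false_eq_true, if_false] at this
      exact this) (by
      intro x hx y hy
      obtain ⟨g1, g2⟩ := hQ x hx y hy.1
      exact ⟨fun F hF => (g1 F hF).mono L1, g2⟩)
    refine ⟨L2 ++ L1, by simpa using hL2, ?_, Prot.bob p P1 P2, ?_, ?_⟩
    · simp only [Prot.size, List.length_append]; rw [add_mul]; omega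
    · simp only [Prot.size]; omega
    · intro x hx y hy
      by_cases hpx : p y = true
      · have := h1 x hx y ⟨hy, hpx⟩
        simp only [Prot.eval, hpx, if_true]
        exact ⟨by simpa using this.1.mono L2, this.2⟩
      · have hpx' : p y = false := by simpa using hpx
        have := h2 x hx y ⟨hy, hpx'⟩
        simp only [Prot.eval, hpx', Bool.false_eq_true, if_false]
        exact ⟨by simpa using this.1, this.2⟩

/-- The labelled protocols of several lines one after the other. -/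
theorem labR_list {B : Set (G → ℝ)} {L : List (G → ℝ)} {pos : X → G} {neg : Y → G} {c : ℕ} :
    ∀ S : List (X → Y → Bool), (∀ g ∈ S, LabR B L pos neg g c) →
      ∃ Q : Prot X Y (List (G → ℝ)), Q.size ≤ c ^ S.length ∧ ∀ x y,
        (∀ F ∈ Q.eval x y, AvR B L F) ∧ (Q.eval x y).length ≤ S.length ∧
        ((∃ g ∈ S, g x y = false) → ∃ F ∈ Q.eval x y, F (neg y) < F (pos x)) := by
  intro S
  induction S with
  | nil =>
    intro _
    exact ⟨Prot.leaf [], by simp [Prot.size], by simp [Prot.eval]⟩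
  | cons g S ih =>
    intro h
    obtain ⟨Q, hQ, hQ'⟩ := ih (fun f hf => h f (List.mem_cons_of_mem _ hf))
    obtain ⟨P, hP, hP'⟩ := h g List.mem_cons_self
    refine ⟨P.bind (fun F => Q.map (fun l => F :: l)), ?_, ?_⟩
    · refine (Prot.size_bind P _ (c ^ S.length) (fun F => by rw [Prot.size_map]; exact hQ)).trans ?_
      rw [List.length_cons, pow_succ, mul_comm]
      exact Nat.mul_le_mul_left _ hP
    · intro x y
      rw [Prot.eval_bind, Prot.eval_map]
      obtain ⟨h1, h2, h3⟩ := hQ' x y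
      obtain ⟨g1, g2⟩ := hP' x y
      refine ⟨?_, ?_, ?_⟩
      · intro F hF
        rcases List.mem_cons.mp hF with rfl | hF
        · exact g1
        · exact h1 F hF
      · rw [List.length_cons, List.length_cons]
        omega
      · rintro ⟨f, hf, hfxy⟩
        rcases List.mem_cons.mp hf with rfl | hf
        · exact ⟨_, List.mem_cons_self, g2 hfxy⟩
        · obtain ⟨F, hF, hF'⟩ := h3 ⟨f, hf, hfxy⟩
          exact ⟨F, List.mem_cons_of_mem _ hF, hF'⟩

/-- Lines which follow from one clause: whenever the line is false, one fixed function of the base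
separates the two tests. -/
def AxR (B : Set (G → ℝ)) (pos : X → G) (neg : Y → G) (f : X → Y → Bool) : Prop :=
  ∃ F ∈ B, ∀ x y, f x y = false → F (neg y) < F (pos x)

/-- Semantic derivations, the last line first; every line has a protocol with at most `c` leaves
which carry comparisons, and follows from at most `k` lines. -/
inductive DerR (B : Set (G → ℝ)) (pos : X → G) (neg : Y → G) (c k : ℕ) :
    List (X → Y → Bool) → Prop
  | nil : DerR B pos neg c k []
  | cons {f : X → Y → Bool} {Γ : List (X → Y → Bool)} : DerR B pos neg c k Γ →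
      (∃ P : Prot X Y ((X → ℝ) × (Y → ℝ)), P.size ≤ c ∧
        ∀ x y, (f x y = false ↔ (P.eval x y).2 y < (P.eval x y).1 x)) →
      (AxR B pos neg f ∨ ∃ S : List (X → Y → Bool), S.length ≤ k ∧ (∀ g ∈ S, g ∈ Γ) ∧
        ∀ x y, (∀ g ∈ S, g x y = true) → f x y = true) → DerR B pos neg c k (f :: Γ)

theorem interpR [Finite X] [Finite Y] {B : Set (G → ℝ)}
    {pos : X → G} {neg : Y → G} {c k : ℕ} (hc : 1 ≤ c) {Γ : List (X → Y → Bool)}
    (h : DerR B pos neg c k Γ) :
    ∃ L, RP B (k + 2) L ∧ L.length ≤ Γ.length * (2 * c ^ (k + 1)) ∧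
      ∀ f ∈ Γ, LabR B L pos neg f c := by
  induction h with
  | nil => exact ⟨[], RP.nil, by simp, by simp⟩
  | @cons f Γ _ hP hf ih =>
    obtain ⟨L, hL, hs, hΓ⟩ := ih
    obtain ⟨P, hPs, hPe⟩ := hP
    have hQ : ∃ Q : Prot X Y (List (G → ℝ)), Q.size ≤ c ^ k ∧ ∀ x y,
        (∀ F ∈ Q.eval x y, AvR B L F) ∧ (Q.eval x y).length ≤ k + 2 ∧
        (f x y = false → ∃ F ∈ Q.eval x y, F (neg y) < F (pos x)) := by
      rcases hf with ⟨F, hFB, hFs⟩ | ⟨S, hS, hSΓ, hSf⟩
      · refine ⟨Prot.leaf [F], by simpa [Prot.size] using Nat.one_le_pow _ _ hc, fun x y => ?_⟩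
        refine ⟨?_, by simp [Prot.eval], fun hxy => ⟨F, by simp [Prot.eval], hFs x y hxy⟩⟩
        intro F' hF'
        simp only [Prot.eval, List.mem_singleton] at hF'
        rw [hF']
        exact Or.inl hFB
      · obtain ⟨Q, hQ, hQ'⟩ := labR_list S (fun g hg => hΓ g (hSΓ g hg))
        refine ⟨Q, hQ.trans (Nat.pow_le_pow_right hc hS), fun x y => ?_⟩
        obtain ⟨h1, h2, h3⟩ := hQ' x y
        refine ⟨h1, by omega, fun hxy => h3 ?_⟩
        by_contra hcon
        push Not at hcon
        have := hSf x y (fun g hg => by simpa using hcon g hg)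
        rw [hxy] at this
        exact absurd this (by simp)
    obtain ⟨Q, hQs, hQe⟩ := hQ
    obtain ⟨L', hL', hs', P', hP', hlab⟩ := stepR (by omega) pos neg f Q P L hL Set.univ Set.univ
      (fun x _ y _ => hPe x y) (fun x _ y _ => hQe x y)
    refine ⟨L' ++ L, hL', ?_, ?_⟩
    · rw [List.length_append, List.length_cons, add_mul, one_mul]
      have h1 : P.size * Q.size ≤ c ^ (k + 1) := by
        rw [pow_succ, mul_comm]
        exact Nat.mul_le_mul hQs hPs
      omega
    · intro g hg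
      rcases List.mem_cons.mp hg with rfl | hg
      · exact ⟨P', hP'.trans hPs, fun x y => hlab x (Set.mem_univ _) y (Set.mem_univ _)⟩
      · exact (hΓ g hg).mono L'

/-- A refutation gives a monotone real program which separates the positive from the negative
tests. -/
theorem interpR_final [Finite X] [Finite Y] {B : Set (G → ℝ)}
    {pos : X → G} {neg : Y → G} {c k : ℕ} (hc : 1 ≤ c) {Γ : List (X → Y → Bool)}
    (h : DerR B pos neg c k Γ) (hfalse : (fun _ _ => false) ∈ Γ) :
    ∃ L F, RP B (k + 2) L ∧ L.length ≤ Γ.length * (2 * c ^ (k + 1)) + 2 * c ∧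
      (F ∈ B ∨ F ∈ L) ∧ (∀ x, 1 ≤ F (pos x)) ∧ ∀ y, F (neg y) ≤ 0 := by
  obtain ⟨L, hL, hs, hΓ⟩ := interpR hc h
  obtain ⟨P, hP, hPe⟩ := hΓ _ hfalse
  obtain ⟨L', hL', hs', F, hF', hp, hn⟩ := buildR (K := k + 2) (by omega) pos neg (fun _ => 1)
    (fun _ => 0) (P.map (fun F => [F])) L hL Set.univ Set.univ (by
      intro x _ y _
      rw [Prot.eval_map]
      refine ⟨?_, by simp, fun _ => ⟨_, List.mem_singleton.mpr rfl, (hPe x y).2 rfl⟩⟩
      intro F' hF'
      rw [List.mem_singleton.mp hF']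
      exact (hPe x y).1)
  refine ⟨L' ++ L, F, hL', ?_, hF', fun x => hp x (Set.mem_univ _), fun y => hn y (Set.mem_univ _)⟩
  rw [Prot.size_map] at hs'
  rw [List.length_append]
  omega

end Pool.Agent.J4H72.OB
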