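import Pool.Agent.J4H72.OB.Orders
import Pool.Agent.J4H72.OB.Halving
import Pool.Agent.J4H72.OB.Formula
import Pool.Agent.J4H72.OB.RInterp

/-!
# The restriction which reduces refutations to monotone real programs
-/

set_option autoImplicit false

namespace Pool.Agent.J4H72.OB

/-- The function which separates the tests if the clause with the given index is false. -/
noncomputable def sepFn {κ q : ℕ} (hq : 0 < q) : Ix κ q → (Tst (κ + 1) q κ → ℝ)
  | Sum.inl _ => edge (0, ⟨0, hq⟩) (0, ⟨0, hq⟩)
  | Sum.inr (Sum.inl _) => edge (0, ⟨0, hq⟩) (0, ⟨0, hq⟩)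
  | Sum.inr (Sum.inr (w, w', _)) => edge w w'

theorem sepFn_mem {κ q : ℕ} (hq : 0 < q) (ix : Ix κ q) : sepFn hq ix ∈ EB (κ + 1) q κ := by
  rcases ix with p | p | p
  · exact ⟨_, _, rfl⟩
  · exact ⟨_, _, rfl⟩
  · exact ⟨p.1, p.2.1, rfl⟩

/-- The values of the variables for the choice `x` of vertices and the colouring `y`. -/
def bval {κ q : ℕ} (x : Fin (κ + 1) → Fin q) (y : WV κ q → Fin κ) : UV κ q → Bool
  | Sum.inl (i, j) => decide (j.val ≤ (x i).val)
  | Sum.inr (w, c) => decide (c.val ≤ (y w).val)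

theorem bval_false {κ q : ℕ} (hq : 0 < q) (x : Fin (κ + 1) → Fin q) (y : WV κ q → Fin κ)
    (ix : Ix κ q) (h : ∀ a, bval x y (bc ix a).1 = !(bc ix a).2) :
    sepFn hq ix (Sum.inr y) < sepFn hq ix (Sum.inl x) := by
  rcases ix with ⟨i, b⟩ | ⟨w, b⟩ | ⟨w, w', c⟩
  · exfalso
    have := h 0
    cases b
    · have h1 := (x i).isLt
      simp [bc, bval] at this
      omega
    · simp [bc, bval] at this
  · exfalso
    have := h 0
    cases b
    · have h1 := (y w).isLt
      simp [bc, bval] at this
      omega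
    · simp [bc, bval] at this
  · by_cases hw : w = w'
    · exfalso
      have := h 0
      rw [bc, if_pos hw] at this
      simp [bval] at this
    · rw [bc, if_neg hw] at h
      have h0 := h 0
      have h1 := h 1
      have h2 := h 2
      have h3 := h 3
      have h4 := h 4
      have h5 := h 5
      have h6 := h 6
      have h7 := h 7
      simp [bval] at h0 h1 h2 h3 h4 h5 h6 h7
      have e1 : w.2 = x w.1 := Fin.ext (by omega)
      have e2 : w'.2 = x w'.1 := Fin.ext (by omega)
      have e3 : y w = y w' := Fin.ext (by omega)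
      have g1 : sepFn hq (Sum.inr (Sum.inr (w, w', c))) (Sum.inl x) = 1 := by
        simp only [sepFn, edge]
        rw [if_pos ⟨hw, e1, e2⟩]
      have g2 : sepFn hq (Sum.inr (Sum.inr (w, w', c))) (Sum.inr y) = 0 := by
        simp only [sepFn, edge]
        rw [if_pos e3]
      rw [g1, g2]
      norm_num

/-- Lines have short protocols. -/
theorem line_prot {X Y V : Type} [Fintype V] {Ords : Finset (V → ℕ)} {w h r : ℕ}
    {f : (V → Bool) → Bool} (hf : Line Ords w h r f) (A B : Finset V) (hAB : Disjoint A B)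
    (hsep : ∀ π ∈ Ords, ((∀ a ∈ A, ∀ b ∈ B, π a + w < π b) ∨ (∀ a ∈ A, ∀ b ∈ B, π b + w < π a)))
    (a : X → V → Bool) (b : Y → V → Bool) (z : V → Bool) :
    ∃ P : Prot X Y ((X → ℝ) × (Y → ℝ)), P.size ≤ (2 ^ h * (2 ^ h * (2 ^ h * 2 ^ h))) ^ r ∧
      ∀ x y, (f (comb A B (a x) (b y) z) = false ↔ (P.eval x y).2 y < (P.eval x y).1 x) := by
  classical
  obtain ⟨Ps, s, co, th, hlen, hPs, hf⟩ := hf
  obtain ⟨Q, hQ, hQe⟩ := prot_sweeps (2 ^ h * (2 ^ h * (2 ^ h * 2 ^ h)))
    (fun x y => comb A B (a x) (b y) z) Ps (by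
      intro P hP s
      obtain ⟨π, hπ, D, hD, hsw⟩ := hPs P hP
      obtain ⟨Q, hQ, hQe⟩ := prot_sweep2 P s D A B hAB w π (hsep π hπ) hsw a b z
      refine ⟨Q, hQ.trans ?_, hQe⟩
      have h1 : 2 ^ D.card ≤ 2 ^ h := Nat.pow_le_pow_right (by norm_num) hD
      exact Nat.mul_le_mul h1 (Nat.mul_le_mul h1 le_rfl)) s
  refine ⟨Q.map (fun s' => (fun x => th s' - ∑ v, (if v ∈ A then (if a x v = true then co s' v else 0)
      else if v ∈ B then 0 else (if z v = true then co s' v else 0)),
      fun y => ∑ v, (if v ∈ A then 0 else if v ∈ B then (if b y v = true then co s' v else 0)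
        else 0))), ?_, fun x y => ?_⟩
  · rw [Prot.size_map]
    exact hQ.trans (Nat.pow_le_pow_right (by positivity) hlen)
  · rw [Prot.eval_map, hQe]
    have h1 := hf (comb A B (a x) (b y) z)
    set s' := run Ps.flatten (comb A B (a x) (b y) z) s with hs'
    have h2 : (∑ v, if comb A B (a x) (b y) z v = true then co s' v else 0) =
        (∑ v, (if v ∈ A then (if a x v = true then co s' v else 0)
          else if v ∈ B then 0 else (if z v = true then co s' v else 0))) +
        ∑ v, (if v ∈ A then 0 else if v ∈ B then (if b y v = true then co s' v else 0) else 0) := by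
      rw [← Finset.sum_add_distrib]
      apply Finset.sum_congr rfl
      intro v _
      simp only [comb]
      by_cases hA : v ∈ A
      · simp [hA]
      · by_cases hB : v ∈ B
        · simp [hA, hB]
        · simp [hA, hB]
    rw [h2] at h1
    constructor
    · intro h3
      have h4 : ¬ (f (comb A B (a x) (b y) z) = true) := by rw [h3]; simp
      rw [h1] at h4
      simp only
      linarith
    · intro h3
      simp only at h3
      have h4 : ¬ (f (comb A B (a x) (b y) z) = true) := by
        rw [h1]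
        linarith
      simpa using h4

/-- From a refutation to a monotone real program. -/
theorem core {n κ q t k r w h M : ℕ} (hq : 0 < q)
    (e : (Fin t → Bool) ⊕ (UV κ q × Fin t) → Fin n)
    (he : Function.Injective e) (Ords : Finset (Fin n → ℕ))
    (hOrds : ∀ π ∈ Ords, Function.Injective π)
    (hM1 : (κ + 1) * (q + 1) ≤ M) (hM2 : (κ + 1) * q * (κ + 1) ≤ M)
    (hcard : 2 * ((M + w) * 2 ^ Ords.card) ≤ 2 ^ t)
    (Γ : List ((Fin n → Bool) → Bool)) (hΓ : Deriv (Fm e) (Line Ords w h r) k Γ)
    (hfalse : (fun _ => false) ∈ Γ) :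
    ∃ L F, RP (EB (κ + 1) q κ) (k + 2) L ∧
      L.length ≤ Γ.length * (2 * ((2 ^ h * (2 ^ h * (2 ^ h * 2 ^ h))) ^ r) ^ (k + 1)) +
        2 * (2 ^ h * (2 ^ h * (2 ^ h * 2 ^ h))) ^ r ∧
      (F ∈ EB (κ + 1) q κ ∨ F ∈ L) ∧ (∀ π, 1 ≤ F (Sum.inl π)) ∧ ∀ c, F (Sum.inr c) ≤ 0 := by
  classical
  -- the pool
  let P : Finset (Fin n) := (Finset.univ : Finset (Fin t → Bool)).image (fun p => e (Sum.inl p))
  have hPc : P.card = 2 ^ t := by
    have h1 := Finset.card_image_of_injective (Finset.univ : Finset (Fin t → Bool))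
      (he.comp Sum.inl_injective)
    rw [Finset.card_univ, Fintype.card_fun, Fintype.card_bool, Fintype.card_fin] at h1
    exact h1
  obtain ⟨A0, hA0, hA0c⟩ := Finset.exists_subset_card_eq (s := P) (n := (M + w) * 2 ^ Ords.card)
    (by omega)
  have hB0c : (M + w) * 2 ^ Ords.card ≤ (P \ A0).card := by
    rw [Finset.card_sdiff_of_subset hA0]
    omega
  obtain ⟨A, hA, B, hB, hAc, hBc, hsep⟩ := halve_all Ords w M hOrds A0 (P \ A0)
    (by omega) (by omega)
  have hAB : Disjoint A B := Finset.disjoint_of_subset_left hA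
    (Finset.disjoint_of_subset_right hB Finset.disjoint_sdiff)
  have hAP : ∀ v ∈ A, ∃ p, e (Sum.inl p) = v := by
    intro v hv
    obtain ⟨p, _, hp⟩ := Finset.mem_image.mp (hA0 (hA hv))
    exact ⟨p, hp⟩
  have hBP : ∀ v ∈ B, ∃ p, e (Sum.inl p) = v := by
    intro v hv
    obtain ⟨p, _, hp⟩ := Finset.mem_image.mp (Finset.mem_sdiff.mp (hB hv)).1
    exact ⟨p, hp⟩
  obtain ⟨EA⟩ : Nonempty ((Fin (κ + 1) × Fin (q + 1)) ↪ {v // v ∈ A}) := by
    apply Function.Embedding.nonempty_of_card_le
    simpa using hM1.trans hAc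
  obtain ⟨EB'⟩ : Nonempty ((WV κ q × Fin (κ + 1)) ↪ {v // v ∈ B}) := by
    apply Function.Embedding.nonempty_of_card_le
    simpa using hM2.trans hBc
  choose pA hpA using fun u => hAP _ (EA u).2
  choose pB hpB using fun u => hBP _ (EB' u).2
  let J : UV κ q → Fin t → Bool := Sum.elim pA pB
  let av : (Fin (κ + 1) → Fin q) → Fin n → Bool := fun x => Function.extend
    (fun u => (EA u : Fin n)) (fun u => decide (u.2.val ≤ (x u.1).val)) (fun _ => false)
  let bv : (WV κ q → Fin κ) → Fin n → Bool := fun y => Function.extend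
    (fun u => (EB' u : Fin n)) (fun u => decide (u.2.val ≤ (y u.1).val)) (fun _ => false)
  let z : Fin n → Bool := Function.extend (fun p : UV κ q × Fin t => e (Sum.inr p))
    (fun p => J p.1 p.2) (fun _ => false)
  let asg : (Fin (κ + 1) → Fin q) → (WV κ q → Fin κ) → Fin n → Bool :=
    fun x y => comb A B (av x) (bv y) z
  -- the values of the pointers
  have hptr : ∀ x y u b, asg x y (e (Sum.inr (u, b))) = J u b := by
    intro x y u b
    have h1 : e (Sum.inr (u, b)) ∉ A := by
      intro hmem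
      obtain ⟨p, hp⟩ := hAP _ hmem
      exact absurd (he hp) (by simp)
    have h2 : e (Sum.inr (u, b)) ∉ B := by
      intro hmem
      obtain ⟨p, hp⟩ := hBP _ hmem
      exact absurd (he hp) (by simp)
    simp only [asg, comb, if_neg h1, if_neg h2, z]
    exact (he.comp Sum.inr_injective).extend_apply (fun p : UV κ q × Fin t => J p.1 p.2) _ (u, b)
  -- the values of the variables
  have hval : ∀ x y u, asg x y (e (Sum.inl (J u))) = bval x y u := by
    intro x y u
    rcases u with u | u
    · have h1 : e (Sum.inl (pA u)) ∈ A := by rw [hpA]; exact (EA u).2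
      simp only [asg, comb, J, Sum.elim_inl, if_pos h1, av]
      rw [hpA]
      exact (Subtype.val_injective.comp EA.injective).extend_apply
        (fun u : Fin (κ + 1) × Fin (q + 1) => decide (u.2.val ≤ (x u.1).val)) _ u
    · have h1 : e (Sum.inl (pB u)) ∈ B := by rw [hpB]; exact (EB' u).2
      have h2 : e (Sum.inl (pB u)) ∉ A := Finset.disjoint_right.mp hAB h1
      simp only [asg, comb, J, Sum.elim_inr, if_pos h1, if_neg h2, bv]
      rw [hpB]
      exact (Subtype.val_injective.comp EB'.injective).extend_apply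
        (fun u : WV κ q × Fin (κ + 1) => decide (u.2.val ≤ (y u.1).val)) _ u
  -- the derivation
  have hder : ∀ Γ : List ((Fin n → Bool) → Bool), Deriv (Fm e) (Line Ords w h r) k Γ →
      DerR (EB (κ + 1) q κ) (X := Fin (κ + 1) → Fin q) (Y := WV κ q → Fin κ) Sum.inl Sum.inr
        ((2 ^ h * (2 ^ h * (2 ^ h * 2 ^ h))) ^ r) k (Γ.map (fun f x y => f (asg x y))) := by
    intro Γ hΓ
    induction hΓ with
    | nil => exact DerR.nil
    | @cons f Γ _ hf hcase ih =>
      rw [List.map_cons]
      refine DerR.cons ih (line_prot hf A B hAB hsep av bv z) ?_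
      rcases hcase with ⟨C, hC, hCf⟩ | ⟨S, hS, hSΓ, hSf⟩
      · left
        obtain ⟨p, _, rfl⟩ := Finset.mem_image.mp hC
        refine ⟨sepFn hq p.1, sepFn_mem hq p.1, fun x y hxy => ?_⟩
        have h1 : ¬ SatC (lift e (bc p.1) p.2) (asg x y) := by
          intro hsat
          have := hCf _ hsat
          exact Bool.false_ne_true (hxy.symm.trans this)
        rw [not_satC_lift] at h1
        apply bval_false
        intro a
        have h2 : J (bc p.1 a).1 = p.2 a := by
          funext b
          rw [← h1.1 a b, hptr]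
        rw [← hval, h2]
        exact h1.2 a
      · right
        refine ⟨S.map (fun f x y => f (asg x y)), by simpa using hS, ?_, ?_⟩
        · intro g hg
          obtain ⟨f', hf', rfl⟩ := List.mem_map.mp hg
          exact List.mem_map.mpr ⟨f', hSΓ f' hf', rfl⟩
        · intro x y hxy
          apply hSf
          intro g hg
          exact hxy _ (List.mem_map.mpr ⟨g, hg, rfl⟩)
  obtain ⟨L, F, hL, hlen, hF, hp, hn⟩ := interpR_final
    (c := (2 ^ h * (2 ^ h * (2 ^ h * 2 ^ h))) ^ r) (Nat.one_le_pow _ _ (by positivity))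
    (hder Γ hΓ) (List.mem_map.mpr ⟨_, hfalse, rfl⟩)
  rw [List.length_map] at hlen
  exact ⟨L, F, hL, hlen, hF, hp, hn⟩

end Pool.Agent.J4H72.OB
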