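import Pool.Agent.J4H72.OB.RCore

/-!
# Parameters
-/

set_option autoImplicit false

namespace Pool.Agent.J4H72.OB

open Filter

/-- The lower bound for the size of the monotone real programs. -/
theorem numR (l K s : ℕ) (hl : 1 ≤ l) (hK : K ≤ l)
    (h : (8 * l ^ 2) ^ (l + 1) ≤ s * (4 * l ^ 2) ^ (l + 1) ∨
      (8 * l ^ 3) ^ (l + 1) ≤ 2 * (s * (K * (4 * l ^ 2)) ^ (l + 1))) : 2 ^ l ≤ s := by
  rcases h with h | h
  · have h1 : (8 * l ^ 2) ^ (l + 1) = 2 ^ (l + 1) * (4 * l ^ 2) ^ (l + 1) := by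
      rw [← mul_pow]
      congr 1
      ring
    rw [h1] at h
    have h2 : 2 ^ (l + 1) ≤ s := Nat.le_of_mul_le_mul_right h (by positivity)
    rw [pow_succ] at h2
    omega
  · have h1 : (8 * l ^ 3) ^ (l + 1) = 2 ^ (l + 1) * (4 * l ^ 3) ^ (l + 1) := by
      rw [← mul_pow]
      congr 1
      ring
    have h2 : (K * (4 * l ^ 2)) ^ (l + 1) ≤ (4 * l ^ 3) ^ (l + 1) := by
      apply Nat.pow_le_pow_left
      calc K * (4 * l ^ 2) ≤ l * (4 * l ^ 2) := Nat.mul_le_mul_right _ hK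
        _ = 4 * l ^ 3 := by ring
    have h3 : 2 ^ (l + 1) * (4 * l ^ 3) ^ (l + 1) ≤ (2 * s) * (4 * l ^ 3) ^ (l + 1) := by
      rw [← h1]
      refine h.trans ?_
      rw [mul_assoc]
      exact Nat.mul_le_mul_left _ (Nat.mul_le_mul_left _ h2)
    have h4 : 2 ^ (l + 1) ≤ 2 * s := Nat.le_of_mul_le_mul_right h3 (by positivity)
    rw [pow_succ] at h4
    omega

/-- The inequalities between the parameters which hold for all large `n`. -/
theorem paramsR (δ : ℝ) (h0 : 0 < δ) (h1 : δ ≤ 1) : ∃ N : ℕ, ∀ n : ℕ, N ≤ n →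
    ∃ l t : ℕ, 1 ≤ l ∧ 5 * (n : ℝ) ^ (δ / 9) + 2 ≤ l ∧ l ^ 8 ≤ n ∧
      6000 * ((l : ℝ) ^ 7 * (n : ℝ) ^ (1 - δ)) ≤ n ∧ n < 4 * 2 ^ t ∧ 2 * 2 ^ t ≤ n ∧
      1500 * (l ^ 7 * t) ≤ n ∧ t + 1 = Nat.log 2 n ∧ 50000 ≤ n := by
  have ha : ∀ᶠ n : ℕ in atTop, (6000 : ℝ) ≤ (n : ℝ) ^ (δ / 8) :=
    ((tendsto_rpow_atTop (by positivity)).comp tendsto_natCast_atTop_atTop).eventually_ge_atTop 6000
  have hb : ∀ᶠ n : ℕ in atTop, (8 : ℝ) ≤ (n : ℝ) ^ (δ / 72) :=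
    ((tendsto_rpow_atTop (by positivity)).comp tendsto_natCast_atTop_atTop).eventually_ge_atTop 8
  have hc : ∀ᶠ n : ℕ in atTop, 3000 * Real.log n ≤ (n : ℝ) ^ ((1 : ℝ) / 8) := by
    have h2 := (isLittleO_log_rpow_atTop (r := (1 : ℝ) / 8) (by norm_num)).def
      (c := 1 / 3000) (by norm_num)
    have h3 := tendsto_natCast_atTop_atTop.eventually h2
    filter_upwards [h3, eventually_ge_atTop 1] with n hn hn1
    have hn1' : (1 : ℝ) ≤ n := by exact_mod_cast hn1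
    rw [Real.norm_of_nonneg (Real.log_nonneg hn1'), Real.norm_of_nonneg (by positivity)] at hn
    linarith
  obtain ⟨N, hN⟩ := eventually_atTop.mp (ha.and (hb.and (hc.and (eventually_ge_atTop 50000))))
  refine ⟨N, fun n hn => ?_⟩
  obtain ⟨ha, hb, hc, hd⟩ := hN n hn
  have hn1 : (1 : ℝ) ≤ n := by exact_mod_cast (by omega : 1 ≤ n)
  have hn0 : (0 : ℝ) < n := by linarith
  set x : ℝ := (n : ℝ) ^ (δ / 8) with hx
  have hx0 : 0 ≤ x := by positivity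
  have hlx : (⌊x⌋₊ : ℝ) ≤ x := Nat.floor_le hx0
  have hlx' : x < ⌊x⌋₊ + 1 := Nat.lt_floor_add_one x
  have hx8 : x ^ 8 = (n : ℝ) ^ δ := by
    rw [hx, ← Real.rpow_natCast, ← Real.rpow_mul hn0.le]
    congr 1
    push_cast
    ring
  have hnδ : (n : ℝ) ^ δ ≤ n := by
    calc (n : ℝ) ^ δ ≤ (n : ℝ) ^ (1 : ℝ) := Real.rpow_le_rpow_of_exponent_le hn1 h1
      _ = n := Real.rpow_one _
  obtain ⟨t, ht⟩ : ∃ t, t + 1 = Nat.log 2 n := ⟨Nat.log 2 n - 1, by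
    have : 1 ≤ Nat.log 2 n := Nat.log_pos (by norm_num) (by omega)
    omega⟩
  have ht1 : 2 * 2 ^ t ≤ n := by
    have := Nat.pow_log_le_self 2 (show n ≠ 0 by omega)
    rw [← ht, pow_succ, mul_comm] at this
    exact this
  have ht2 : n < 4 * 2 ^ t := by
    have := Nat.lt_pow_succ_log_self (b := 2) (by norm_num) n
    rw [← ht, pow_succ, pow_succ] at this
    omega
  refine ⟨⌊x⌋₊, t, Nat.le_floor (by push_cast; linarith), ?_, ?_, ?_, ht2, ht1, ?_, ht, hd⟩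
  · have hy : (1 : ℝ) ≤ (n : ℝ) ^ (δ / 9) := Real.one_le_rpow hn1 (by positivity)
    have hxy : x = (n : ℝ) ^ (δ / 9) * (n : ℝ) ^ (δ / 72) := by
      rw [hx, ← Real.rpow_add hn0]
      congr 1
      ring
    have : x ≥ (n : ℝ) ^ (δ / 9) * 8 := by
      rw [hxy]
      exact mul_le_mul_of_nonneg_left hb (by positivity)
    linarith
  · have : ((⌊x⌋₊ : ℝ)) ^ 8 ≤ n := by
      calc ((⌊x⌋₊ : ℝ)) ^ 8 ≤ x ^ 8 := pow_le_pow_left₀ (by positivity) hlx 8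
        _ ≤ n := by rw [hx8]; exact hnδ
    exact_mod_cast this
  · have hl7 : ((⌊x⌋₊ : ℝ)) ^ 7 ≤ x ^ 7 := pow_le_pow_left₀ (by positivity) hlx 7
    calc 6000 * ((⌊x⌋₊ : ℝ) ^ 7 * (n : ℝ) ^ (1 - δ)) ≤ x * (x ^ 7 * (n : ℝ) ^ (1 - δ)) := by
          gcongr
      _ = x ^ 8 * (n : ℝ) ^ (1 - δ) := by ring
      _ = (n : ℝ) ^ (δ + (1 - δ)) := by rw [hx8, ← Real.rpow_add hn0]
      _ = n := by rw [add_sub_cancel, Real.rpow_one]
  · have hl7 : ((⌊x⌋₊ : ℝ)) ^ 7 ≤ (n : ℝ) ^ ((7 : ℝ) / 8) := by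
      calc ((⌊x⌋₊ : ℝ)) ^ 7 ≤ x ^ 7 := pow_le_pow_left₀ (by positivity) hlx 7
        _ = (n : ℝ) ^ (δ / 8 * 7) := by
            rw [hx, ← Real.rpow_natCast, ← Real.rpow_mul hn0.le]
            congr 1
        _ ≤ (n : ℝ) ^ ((7 : ℝ) / 8) := by
            apply Real.rpow_le_rpow_of_exponent_le hn1
            linarith
    have ht3 : 1500 * (t : ℝ) ≤ (n : ℝ) ^ ((1 : ℝ) / 8) := by
      have h3 : ((2 : ℝ)) ^ t ≤ n := by
        have : 2 ^ t ≤ n := by omega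
        exact_mod_cast this
      have h4 : (t : ℝ) * Real.log 2 ≤ Real.log n := by
        rw [← Real.log_pow]
        exact Real.log_le_log (by positivity) h3
      have h5 : (1 : ℝ) / 2 ≤ Real.log 2 := by
        have := Real.log_two_gt_d9
        linarith
      have h6 : (t : ℝ) * (1 / 2) ≤ Real.log n :=
        (mul_le_mul_of_nonneg_left h5 (Nat.cast_nonneg t)).trans h4
      linarith
    have : (1500 * ((⌊x⌋₊ : ℝ) ^ 7 * t)) ≤ n := by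
      calc (1500 * ((⌊x⌋₊ : ℝ) ^ 7 * t)) = (⌊x⌋₊ : ℝ) ^ 7 * (1500 * t) := by ring
        _ ≤ (n : ℝ) ^ ((7 : ℝ) / 8) * (n : ℝ) ^ ((1 : ℝ) / 8) := by gcongr
        _ = (n : ℝ) ^ ((7 : ℝ) / 8 + (1 : ℝ) / 8) := by rw [← Real.rpow_add hn0]
        _ = n := by norm_num
    exact_mod_cast this

/-- The lower bound. -/
theorem several_orders (hcl : S_clique) (δ : ℝ) (h0 : 0 < δ) (h1 : δ ≤ 1) :
    ∃ N : ℕ, ∀ n : ℕ, N ≤ n →
    ∃ F : Finset (Finset (Fin n × Bool)), Unsat F ∧ F.card ≤ n ^ 11 ∧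
      (∀ C ∈ F, C.card ≤ 8 * Nat.log 2 n) ∧
      ∀ Ords : Finset (Fin n → ℕ), (∀ π ∈ Ords, Function.Injective π) →
        ∀ w h p k : ℕ, (((w + 1) * 2 ^ Ords.card : ℕ) : ℝ) ≤ (n : ℝ) ^ (1 - δ) →
          (((k + 1) * (p * h + 1) : ℕ) : ℝ) ≤ (n : ℝ) ^ (δ / 9) →
          ∀ Γ : List ((Fin n → Bool) → Bool), Deriv F (Line Ords w h p) k Γ →
            (fun _ => false) ∈ Γ → (2 : ℝ) ^ ((n : ℝ) ^ (δ / 9)) ≤ Γ.length := by
  obtain ⟨N, hN⟩ := paramsR δ h0 h1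
  refine ⟨N, fun n hn => ?_⟩
  obtain ⟨l, t, hl1, hlε, hl8, hlδ, ht1, ht2, ht3, ht4, hn12⟩ := hN n hn
  have hlp : ∀ a b : ℕ, a ≤ b → l ^ a ≤ l ^ b := fun a b hab => Nat.pow_le_pow_right hl1 hab
  have hκ : 8 * l ^ 2 + 1 ≤ 9 * l ^ 2 := by
    have e1 : 1 ≤ l ^ 2 := Nat.one_le_pow _ _ hl1
    omega
  have hM1 : (8 * l ^ 2 + 1) * (8 * l ^ 3 + 1) ≤ 648 * l ^ 7 := by
    calc (8 * l ^ 2 + 1) * (8 * l ^ 3 + 1) ≤ (9 * l ^ 2) * (9 * l ^ 3) := by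
          have e2 : 1 ≤ l ^ 3 := Nat.one_le_pow _ _ hl1
          exact Nat.mul_le_mul hκ (by omega)
      _ = 81 * l ^ 5 := by ring
      _ ≤ 648 * l ^ 7 := Nat.mul_le_mul (by norm_num) (hlp 5 7 (by norm_num))
  have hM2 : (8 * l ^ 2 + 1) * (8 * l ^ 3) * (8 * l ^ 2 + 1) ≤ 648 * l ^ 7 := by
    calc (8 * l ^ 2 + 1) * (8 * l ^ 3) * (8 * l ^ 2 + 1) ≤ (9 * l ^ 2) * (8 * l ^ 3) * (9 * l ^ 2) :=
          Nat.mul_le_mul (Nat.mul_le_mul hκ le_rfl) hκ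
      _ = 648 * l ^ 7 := by ring
  -- the names of the variables
  have hM1' : (8 * l ^ 2 + 1) * (8 * l ^ 3 + 1) ≤ 81 * l ^ 7 := by
    calc (8 * l ^ 2 + 1) * (8 * l ^ 3 + 1) ≤ (9 * l ^ 2) * (9 * l ^ 3) := by
          have e2 : 1 ≤ l ^ 3 := Nat.one_le_pow _ _ hl1
          exact Nat.mul_le_mul hκ (by omega)
      _ = 81 * l ^ 5 := by ring
      _ ≤ 81 * l ^ 7 := Nat.mul_le_mul (by norm_num) (hlp 5 7 (by norm_num))
  have hcardV : Fintype.card ((Fin t → Bool) ⊕ (UV (8 * l ^ 2) (8 * l ^ 3) × Fin t)) ≤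
      Fintype.card (Fin n) := by
    simp only [Fintype.card_sum, Fintype.card_prod, Fintype.card_fin, Fintype.card_fun,
      Fintype.card_bool]
    have e1 : ((8 * l ^ 2 + 1) * (8 * l ^ 3 + 1) +
        (8 * l ^ 2 + 1) * (8 * l ^ 3) * (8 * l ^ 2 + 1)) * t ≤
        (729 * l ^ 7) * t := Nat.mul_le_mul_right _ (by omega)
    have e2 : 2 * ((729 * l ^ 7) * t) = 1458 * (l ^ 7 * t) := by ring
    omega
  obtain ⟨e⟩ := Function.Embedding.nonempty_of_card_le hcardV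
  refine ⟨Fm e, Fm_unsat e, ?_, ?_, ?_⟩
  · refine (Fm_card (e : _ → Fin n)).trans ?_
    have e2 : (8 * l ^ 2 + 1) * (8 * l ^ 3) ≤ 72 * l ^ 5 := by
      calc (8 * l ^ 2 + 1) * (8 * l ^ 3) ≤ 9 * l ^ 2 * (8 * l ^ 3) := Nat.mul_le_mul_right _ hκ
        _ = 72 * l ^ 5 := by ring
    have e3 : (8 * l ^ 2 + 1) * (8 * l ^ 3) * ((8 * l ^ 2 + 1) * (8 * l ^ 3) * (8 * l ^ 2)) ≤
        41472 * l ^ 12 := by
      calc (8 * l ^ 2 + 1) * (8 * l ^ 3) * ((8 * l ^ 2 + 1) * (8 * l ^ 3) * (8 * l ^ 2)) ≤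
            (72 * l ^ 5) * ((72 * l ^ 5) * (8 * l ^ 2)) :=
            Nat.mul_le_mul e2 (Nat.mul_le_mul_right _ e2)
        _ = 41472 * l ^ 12 := by ring
    have e4 : l ^ 12 ≤ n ^ 2 := by
      calc l ^ 12 ≤ l ^ 16 := hlp 12 16 (by norm_num)
        _ = (l ^ 8) ^ 2 := by ring
        _ ≤ n ^ 2 := Nat.pow_le_pow_left hl8 2
    have e5 := hlp 2 12 (by norm_num)
    have e6 := hlp 5 12 (by norm_num)
    have e7 : (2 ^ t) ^ 8 ≤ n ^ 8 := Nat.pow_le_pow_left (by omega) 8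
    calc _ ≤ (50000 * n ^ 2) * n ^ 8 := by
          apply Nat.mul_le_mul _ e7
          omega
      _ = 50000 * n ^ 10 := by ring
      _ ≤ n * n ^ 10 := Nat.mul_le_mul_right _ hn12
      _ = n ^ 11 := by ring
  · intro C hC
    rw [← ht4]
    exact Fm_width _ C hC
  · intro Ords hOrds w h p k hcard hT Γ hΓ hfalse
    have hcard' : 2 * ((648 * l ^ 7 + w) * 2 ^ Ords.card) ≤ 2 ^ t := by
      have e1 : (6000 : ℝ) * ((l : ℝ) ^ 7 * (((w + 1) * 2 ^ Ords.card : ℕ) : ℝ)) ≤ n := by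
        refine le_trans ?_ hlδ
        gcongr
      have e2 : 6000 * (l ^ 7 * ((w + 1) * 2 ^ Ords.card)) ≤ n := by exact_mod_cast e1
      have e3 : (648 * l ^ 7 + w) * 2 ^ Ords.card ≤
          649 * (l ^ 7 * ((w + 1) * 2 ^ Ords.card)) := by
        have e4 : 1 ≤ l ^ 7 := Nat.one_le_pow _ _ hl1
        calc (648 * l ^ 7 + w) * 2 ^ Ords.card ≤
              (649 * (l ^ 7 * (w + 1))) * 2 ^ Ords.card := by
              apply Nat.mul_le_mul_right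
              nlinarith
          _ = _ := by ring
      omega
    obtain ⟨L, G, hL, hLlen, hG, hGp, hGn⟩ := core (M := 648 * l ^ 7) (by positivity)
      (e : _ → Fin n) e.injective Ords hOrds hM1 hM2 hcard' Γ hΓ hfalse
    set y : ℝ := (n : ℝ) ^ (δ / 9) with hy
    have hy0 : 0 ≤ y := by positivity
    -- the fan-in
    have hKl : k + 2 ≤ l := by
      have e1 : ((k + 1 : ℕ) : ℝ) ≤ y := by
        refine le_trans ?_ hT
        have : k + 1 ≤ (k + 1) * (p * h + 1) := Nat.le_mul_of_pos_right _ (by omega)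
        exact_mod_cast this
      have e2 : ((k + 2 : ℕ) : ℝ) ≤ l := by
        push_cast at e1 ⊢
        linarith
      exact_mod_cast e2
    have hclq := hcl (8 * l ^ 2 + 1) (8 * l ^ 3) (8 * l ^ 2) l l (k + 2)
      (Nat.one_le_iff_ne_zero.mpr (by positivity)) (Nat.one_le_iff_ne_zero.mpr (by positivity))
      hl1 hl1 (by
        calc 8 * l ^ 2 ≤ 64 * l ^ 6 := Nat.mul_le_mul (by norm_num) (hlp 2 6 (by norm_num))
          _ = (8 * l ^ 3) ^ 2 := by ring) L hL G hG 1 hGp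
      (fun c => lt_of_le_of_lt (hGn c) one_pos)
    have hnum := numR l (k + 2) L.length hl1 hKl hclq
    -- the size
    have hsize : 2 ^ l ≤ (Γ.length + 1) * 2 ^ (4 * ((k + 1) * (p * h + 1)) + 1) := by
      refine (hnum.trans hLlen).trans ?_
      have e1 : (2 ^ h * (2 ^ h * (2 ^ h * 2 ^ h))) ^ p = 2 ^ (4 * h * p) := by
        rw [pow_mul]
        congr 1
        ring
      rw [e1, ← pow_mul]
      have e2 : 4 * h * p * (k + 1) ≤ 4 * ((k + 1) * (p * h + 1)) := by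
        nlinarith
      have e3 : 2 ^ (4 * h * p) ≤ 2 ^ (4 * h * p * (k + 1)) :=
        Nat.pow_le_pow_right (by norm_num) (Nat.le_mul_of_pos_right _ (by omega))
      have e4 : 2 ^ (4 * h * p * (k + 1)) ≤ 2 ^ (4 * ((k + 1) * (p * h + 1))) :=
        Nat.pow_le_pow_right (by norm_num) e2
      calc Γ.length * (2 * 2 ^ (4 * h * p * (k + 1))) + 2 * 2 ^ (4 * h * p) ≤
            Γ.length * (2 * 2 ^ (4 * ((k + 1) * (p * h + 1)))) +
              2 * 2 ^ (4 * ((k + 1) * (p * h + 1))) := by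
            apply Nat.add_le_add
            · exact Nat.mul_le_mul_left _ (Nat.mul_le_mul_left _ e4)
            · exact Nat.mul_le_mul_left _ (e3.trans e4)
        _ = (Γ.length + 1) * 2 ^ (4 * ((k + 1) * (p * h + 1)) + 1) := by rw [pow_succ]; ring
    -- real numbers
    by_contra hlt
    push Not at hlt
    have h2y : (1 : ℝ) ≤ (2 : ℝ) ^ y := Real.one_le_rpow (by norm_num) hy0
    have e1 : ((2 : ℝ)) ^ (l : ℝ) ≤ ((Γ.length : ℝ) + 1) *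
        (2 : ℝ) ^ ((4 : ℝ) * (((k + 1) * (p * h + 1) : ℕ) : ℝ) + 1) := by
      have e2 : ((2 ^ l : ℕ) : ℝ) ≤
          (((Γ.length + 1) * 2 ^ (4 * ((k + 1) * (p * h + 1)) + 1) : ℕ) : ℝ) := by
        exact_mod_cast hsize
      rw [Real.rpow_natCast]
      have e3 : (2 : ℝ) ^ ((4 : ℝ) * (((k + 1) * (p * h + 1) : ℕ) : ℝ) + 1) =
          (2 : ℝ) ^ (4 * ((k + 1) * (p * h + 1)) + 1) := by
        rw [← Real.rpow_natCast]
        congr 1
        push_cast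
        ring
      rw [e3]
      push_cast at e2
      exact e2
    have e2 : ((2 : ℝ)) ^ (l : ℝ) < (2 : ℝ) ^ (2 + 5 * y) := by
      refine lt_of_le_of_lt e1 ?_
      have e3 : (2 : ℝ) ^ ((4 : ℝ) * (((k + 1) * (p * h + 1) : ℕ) : ℝ) + 1) ≤
          (2 : ℝ) ^ (4 * y + 1) := by
        apply Real.rpow_le_rpow_of_exponent_le (by norm_num)
        linarith
      have e4 : (2 : ℝ) ^ (2 + 5 * y) = (2 * (2 : ℝ) ^ y) * (2 : ℝ) ^ (4 * y + 1) := by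
        rw [show (2 : ℝ) + 5 * y = 1 + y + (4 * y + 1) by ring, Real.rpow_add (by norm_num),
          Real.rpow_add (x := 2) (by norm_num) 1 y, Real.rpow_one]
      rw [e4]
      have e5 : (0 : ℝ) < (2 : ℝ) ^ (4 * y + 1) := by positivity
      calc ((Γ.length : ℝ) + 1) * (2 : ℝ) ^ ((4 : ℝ) * (((k + 1) * (p * h + 1) : ℕ) : ℝ) + 1) ≤
            ((Γ.length : ℝ) + 1) * (2 : ℝ) ^ (4 * y + 1) := by gcongr
        _ < (2 * (2 : ℝ) ^ y) * (2 : ℝ) ^ (4 * y + 1) := by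
            apply mul_lt_mul_of_pos_right _ e5
            linarith
    rw [Real.rpow_lt_rpow_left_iff (by norm_num)] at e2
    linarith

end Pool.Agent.J4H72.OB
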